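import Pool.Agent.Lib.MP_c05127_co.PO.DefsG

/-!
# MP_c05127_co, project PR (families with two parts mixed with families of prime power type): definitions

A family with `r i = 2` has `2 l + 2` hyperplanes, numbered by `Ix l`.  Its weights are the absolute values of the
coefficients `mu` of the affine dependency of the `2 l + 2` vectors of the hyperplanes in `ℝ^(2 l)` (given by
determinants), plus a constant `c`; later `c` tends to `0`.
-/

set_option autoImplicit false

open scoped Classical

namespace Pool.Agent.MPc05127.PR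

open Pool.Agent.MPc05127.PP (E)
open Pool.Agent.MPc05127.PO

/-- The numbers of the hyperplanes of a family with two parts. -/
abbrev Ix (l : ℕ) : Type := Option (Option (Fin l × Bool))

theorem cardIx (l : ℕ) : Fintype.card (Ix l) = 2 * l + 2 := by
  simp [Ix, mul_comm]

/-- The numbering. -/
noncomputable def nb (l : ℕ) : Ix l ≃ Fin (2 * l + 2) := Fintype.equivFinOfCardEq (cardIx l)

section

variable {m l d : ℕ} {e : Fin m → ℕ}

/-- The vector `(*, 1, F_h)` of the hyperplane `h` of the family `i`. -/
noncomputable def Am (a : Fin m → ℕ → E d) (X : Jo l e → ℕ → ℂ) (y : Fin l → ℂ) (i : Fin m) :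
    Matrix (Ix l) (Ix l) ℝ :=
  fun h c => match c with
    | none => 0
    | some none => 1
    | some (some (b, s)) => if s then (FO a X y i b (nb l h)).im else (FO a X y i b (nb l h)).re

/-- The coefficients of the dependency. -/
noncomputable def mu (a : Fin m → ℕ → E d) (X : Jo l e → ℕ → ℂ) (y : Fin l → ℂ) (i : Fin m)
    (h : Ix l) : ℝ := ((Am a X y i).updateCol none (Pi.single h 1)).det

/-- The sum of the weights before the normalization. -/
noncomputable def Sm (c : ℝ) (a : Fin m → ℕ → E d) (X : Jo l e → ℕ → ℂ) (y : Fin l → ℂ)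
    (i : Fin m) : ℝ := ∑ h, (|mu a X y i h| + c)

/-- The weighted sum of the vectors of the family `i`. -/
noncomputable def GR (c : ℝ) (a : Fin m → ℕ → E d) (X : Jo l e → ℕ → ℂ) (y : Fin l → ℂ)
    (i : Fin m) (b : Fin l) : ℂ :=
  ∑ h, (((|mu a X y i h| + c) / Sm c a X y i : ℝ) : ℂ) * FO a X y i b (nb l h)

/-- The functions: those of the project PO, for the families `i` with `ρ i` the weighted sums. -/
noncomputable def fR (p : ℕ) [NeZero p] (ρ : Fin m → Bool) (c : ℝ) (a : Fin m → ℕ → E d) :
    Cf p l e → (Jo l e → ℕ → ℂ) → (Fin l → ℂ) → ℂ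
  | Sum.inr (Sum.inr (b, i)), X, y =>
    if ρ i.1 then GR c a X y i.1 b else fo p a (Sum.inr (Sum.inr (b, i))) X y
  | x, X, y => fo p a x X y

/-- The Miranda functions. -/
noncomputable def gR (p : ℕ) [NeZero p] [NeZero m] (ρ : Fin m → Bool) (c : ℝ)
    (a : Fin m → ℕ → E d) (b : Fin l) (X : Jo l e → ℕ → ℂ) (y : Fin l → ℂ) : ℂ :=
  if ρ 0 then -((1 - su y : ℝ) * GR c a X y 0 b) +
    (su y * (‖vR d X b‖ ^ 2 + ‖vI d X b‖ ^ 2) : ℝ) * y b
  else go p a b X y

end

end Pool.Agent.MPc05127.PR
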