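import Pool.Agent.Lib.MP_c05127_co.PR.Ker

/-!
# MP_c05127_co, project PR: continuity of the functions
-/

set_option autoImplicit false

open scoped Classical

namespace Pool.Agent.MPc05127.PR

open Pool.Agent.MPc05127.PP (E)
open Pool.Agent.MPc05127.PO

section

variable {m l d p : ℕ} {e : Fin m → ℕ}

theorem contX (j : Jo l e) (c : ℕ) :
    Continuous (fun z : (Jo l e → ℕ → ℂ) × (Fin l → ℂ) => z.1 j c) :=
  (continuous_apply c).comp ((continuous_apply j).comp continuous_fst)

theorem contY (b : Fin l) :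
    Continuous (fun z : (Jo l e → ℕ → ℂ) × (Fin l → ℂ) => z.2 b) :=
  (continuous_apply b).comp continuous_snd

theorem contVR (b : Fin l) :
    Continuous (fun z : (Jo l e → ℕ → ℂ) × (Fin l → ℂ) => vR d z.1 b) := by
  unfold vR
  exact (PiLp.continuous_toLp 2 _).comp
    (continuous_pi (fun c => Complex.continuous_re.comp (contX (Sum.inr b) (c : ℕ))))

theorem contVI (b : Fin l) :
    Continuous (fun z : (Jo l e → ℕ → ℂ) × (Fin l → ℂ) => vI d z.1 b) := by
  unfold vI
  exact (PiLp.continuous_toLp 2 _).comp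
    (continuous_pi (fun c => Complex.continuous_im.comp (contX (Sum.inr b) (c : ℕ))))

theorem contUO :
    Continuous (fun z : (Jo l e → ℕ → ℂ) × (Fin l → ℂ) => uo d z.1 z.2) := by
  unfold uo
  exact continuous_finsetSum _ (fun b _ =>
    ((Complex.continuous_re.comp (contY b)).smul (contVR b)).add
      ((Complex.continuous_im.comp (contY b)).smul (contVI b)))

theorem contTu :
    Continuous (fun z : (Jo l e → ℕ → ℂ) × (Fin l → ℂ) => tu z.2) := by
  unfold tu
  exact continuous_const.max (continuous_const.sub (continuous_const.mul continuous_snd.norm))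

theorem contSu :
    Continuous (fun z : (Jo l e → ℕ → ℂ) × (Fin l → ℂ) => su z.2) := by
  unfold su
  exact continuous_const.max ((continuous_const.mul continuous_snd.norm).sub continuous_const)

theorem contFO (a : Fin m → ℕ → E d) (i : Fin m) (b : Fin l) (h : ℕ) :
    Continuous (fun z : (Jo l e → ℕ → ℂ) × (Fin l → ℂ) => FO a z.1 z.2 i b h) := by
  unfold FO
  simp only [Complex.mk_eq_add_mul_I]
  exact (Complex.continuous_ofReal.comp (contTu.sub (continuous_const.inner contUO))).mul
    ((Complex.continuous_ofReal.comp (continuous_const.inner (contVR b))).add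
      ((Complex.continuous_ofReal.comp (continuous_const.inner (contVI b))).mul continuous_const))

theorem contAm (a : Fin m → ℕ → E d) (i : Fin m) :
    Continuous (fun z : (Jo l e → ℕ → ℂ) × (Fin l → ℂ) => Am a z.1 z.2 i) := by
  refine continuous_pi fun h => continuous_pi fun c => ?_
  rcases c with _ | (_ | ⟨b, s⟩)
  · exact continuous_const
  · exact continuous_const
  · cases s
    · exact Complex.continuous_re.comp (contFO a i b (nb l h))
    · exact Complex.continuous_im.comp (contFO a i b (nb l h))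

theorem contMu (a : Fin m → ℕ → E d) (i : Fin m) (h : Ix l) :
    Continuous (fun z : (Jo l e → ℕ → ℂ) × (Fin l → ℂ) => mu a z.1 z.2 i h) := by
  unfold mu
  exact ((contAm a i).matrix_updateCol none continuous_const).matrix_det

theorem Sm_pos (c : ℝ) (hc : 0 < c) (a : Fin m → ℕ → E d) (X : Jo l e → ℕ → ℂ) (y : Fin l → ℂ)
    (i : Fin m) : 0 < Sm c a X y i := by
  unfold Sm
  exact Finset.sum_pos (fun h _ => add_pos_of_nonneg_of_pos (abs_nonneg _) hc)
    Finset.univ_nonempty

theorem contSm (c : ℝ) (a : Fin m → ℕ → E d) (i : Fin m) :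
    Continuous (fun z : (Jo l e → ℕ → ℂ) × (Fin l → ℂ) => Sm c a z.1 z.2 i) := by
  unfold Sm
  exact continuous_finsetSum _ fun h _ => ((contMu a i h).abs).add continuous_const

theorem contGR (c : ℝ) (hc : 0 < c) (a : Fin m → ℕ → E d) (i : Fin m) (b : Fin l) :
    Continuous (fun z : (Jo l e → ℕ → ℂ) × (Fin l → ℂ) => GR c a z.1 z.2 i b) := by
  unfold GR
  refine continuous_finsetSum _ fun h _ => Continuous.mul ?_ (contFO a i b (nb l h))
  exact Complex.continuous_ofReal.comp (Continuous.div (((contMu a i h).abs).add continuous_const)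
    (contSm c a i) fun z => (Sm_pos c hc a z.1 z.2 i).ne')

theorem contfR [NeZero p] (hFc : S_Fc) (hp : 2 ≤ p) [NeZero m] (ρ : Fin m → Bool) (c : ℝ) (hc : 0 < c)
    (a : Fin m → ℕ → E d) (x : Cf p l e) :
    ContinuousOn (fun z : (Jo l e → ℕ → ℂ) × (Fin l → ℂ) => fR p ρ c a x z.1 z.2) (DomO (no p)) := by
  have h1 := (hFc p hp m l d e a).1 x
  rcases x with ⟨i, χ, _ | ⟨b, s⟩⟩ | (b | ⟨q, s⟩) | ⟨b, i⟩
  · exact h1
  · exact h1
  · exact h1
  · exact h1
  · by_cases hi : ρ i.1 = true
    · have h2 : (fun z : (Jo l e → ℕ → ℂ) × (Fin l → ℂ) =>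
          fR p ρ c a (Sum.inr (Sum.inr (b, i)) : Cf p l e) z.1 z.2) =
          fun z => GR c a z.1 z.2 i.1 b := by
        funext z
        exact if_pos hi
      rw [h2]
      exact (contGR c hc a i.1 b).continuousOn
    · have h2 : (fun z : (Jo l e → ℕ → ℂ) × (Fin l → ℂ) =>
          fR p ρ c a (Sum.inr (Sum.inr (b, i)) : Cf p l e) z.1 z.2) =
          fun z => fo p a (Sum.inr (Sum.inr (b, i)) : Cf p l e) z.1 z.2 := by
        funext z
        exact if_neg hi
      rw [h2]
      exact h1

theorem contgR [NeZero p] (hFc : S_Fc) (hp : 2 ≤ p) [NeZero m] (ρ : Fin m → Bool) (c : ℝ) (hc : 0 < c)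
    (a : Fin m → ℕ → E d) (b : Fin l) :
    ContinuousOn (fun z : (Jo l e → ℕ → ℂ) × (Fin l → ℂ) => gR p ρ c a b z.1 z.2) (DomO (no p)) := by
  by_cases h0 : ρ 0 = true
  · unfold gR
    simp only [if_pos h0]
    refine Continuous.continuousOn ?_
    refine Continuous.add (Continuous.neg (Continuous.mul ?_ (contGR c hc a 0 b)))
      (Continuous.mul ?_ (contY b))
    · exact Complex.continuous_ofReal.comp (continuous_const.sub contSu)
    · exact Complex.continuous_ofReal.comp (contSu.mul
        (((contVR b).norm.pow 2).add ((contVI b).norm.pow 2)))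
  · unfold gR
    simp only [if_neg h0]
    exact (hFc p hp m l d e a).2 b

end

end Pool.Agent.MPc05127.PR
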