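import Pool.Agent.Lib.MP_c05127_co.PR.Fink

set_option autoImplicit false

/-!
# MP_c05127_co, project PR: the final theorem
-/

open scoped Classical

namespace Pool.Agent.Lib.MP_c05127_co.PP

open Pool.Agent.Lib.MP_c05127_co.Brief

/-- In general position `d` members have no common direction. -/
theorem span_of_genPos {d m : ℕ} (A : Fin m → Finset (Aff d)) (hG : GenPosK A) (i : Fin m)
    (hc : d ≤ (A i).card) (u : Brief.E d) (hu : u ≠ 0) : ∃ h ∈ A i, ¬ In (dir h) u := by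
  by_contra hcon
  push Not at hcon
  obtain ⟨S, hS, hSc⟩ := Finset.exists_subset_card_eq hc
  have h1 := hG.2 S (fun h hh => ⟨i, hS hh⟩) (by omega)
  have h2 : dim (meet S) = 0 := by omega
  have h3 : meet S = ⊥ := Submodule.finrank_eq_zero.1 h2
  have h4 : u ∈ meet S := by
    unfold meet
    rw [Submodule.mem_iInf]
    intro h
    rw [Submodule.mem_iInf]
    intro hh
    exact hcon h (hS hh)
  rw [h3, Submodule.mem_bot] at h4
  exact hu h4

/-- The final theorem of the project. -/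
theorem allMixed (p d k : ℕ) (r : Fin (d - k + 1) → ℕ) (A : Fin (d - k + 1) → Finset (Aff d))
    (hp : p.Prime) (hp2 : p ≠ 2) (hk : Even k) (hk1 : 1 ≤ k) (hkd : k ≤ d)
    (hr : ∀ i, r i = 2 ∨ ∃ e, r i = p ^ e) (hA : ∀ i, IsArr (A i))
    (hcard : ∀ i, (A i).card = (k + 1) * (r i - 1) + 1)
    (h : (NoDirK r A ∧ ∀ i, r i = 2 → ∀ u : Brief.E d, u ≠ 0 → ∃ h ∈ A i, ¬ In (dir h) u) ∨
      (GenPosK A ∧ d ≤ k + 2)) : ConclK k r A := by
  have main : NoDirK r A → (∀ i, r i = 2 → ∀ u : Brief.E d, u ≠ 0 → ∃ h ∈ A i, ¬ In (dir h) u) →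
      ConclK k r A := by
    intro hN hS
    obtain ⟨l, hl⟩ := hk
    obtain rfl : k = 2 * l := by omega
    exact tFinkR p hp hp2 d l r A (by omega) hkd hr hA hcard hS hN
  have hr1 : ∀ i, 1 ≤ r i := by
    intro i
    rcases hr i with h | ⟨e, h⟩
    · omega
    · rw [h]
      exact Nat.one_le_pow _ _ hp.pos
  rcases h with ⟨hN, hS⟩ | ⟨hG, hd⟩
  · exact main hN hS
  · by_cases hs : d ≤ ∑ i, r i
    · refine main (wGen1k d _ r A hG hs) (fun i hi u hu => span_of_genPos A hG i ?_ u hu)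
      rw [hcard i, hi]
      omega
    · refine wGen2k d k _ r A (Nat.succ_pos _) hk1 hkd hr1 hA (fun i => ?_) hG (by omega)
      rw [hcard i]
      have h5 := hr1 i
      obtain ⟨x, hx⟩ : ∃ x, r i = x + 1 := ⟨r i - 1, by omega⟩
      rw [hx, Nat.add_sub_cancel]
      nlinarith [Nat.zero_le (k * x)]

end Pool.Agent.Lib.MP_c05127_co.PP
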