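import Pool.Agent.Lib.MP_c05127_co.PR.Geo
import Pool.Agent.Lib.MP_c05127_co.PO.SpecE
import Pool.Agent.Lib.MP_c05127_co.Hyp

set_option autoImplicit false

/-!
# MP_c05127_co, project PR: from vectors to hyperplanes, after the module PO/FinkO
-/

open scoped Classical

namespace Pool.Agent.Lib.MP_c05127_co.PP

open Pool.Agent.Lib.MP_c05127_co.Brief

namespace FinkR

private lemma one_le_RD {d : ℕ} (B : Finset (Aff d)) (q x : Brief.E d)
    (L : Sub d) (hx : x ∈ L) (hx0 : x ≠ 0)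
    (h : ∀ v ∈ L, v ≠ 0 → ∃ H ∈ B, Brief.Hits H q v) : 1 ≤ Brief.RD B q L := by
  unfold Brief.RD
  have hne : {n | ∃ v, In L v ∧ v ≠ 0 ∧
      n = (B.filter (fun h => Brief.Hits h q v)).card}.Nonempty := ⟨_, x, hx, hx0, rfl⟩
  obtain ⟨v, hv, hv0, hn⟩ := Nat.sInf_mem hne
  rw [hn]
  obtain ⟨H, hH, hits⟩ := h v hv hv0
  exact Finset.card_pos.2 ⟨H, Finset.mem_filter.2 ⟨hH, hits⟩⟩

private lemma hits_of {d : ℕ} (H : Aff d) (a q v : Brief.E d)
    (h1 : ∀ x, x ∈ H ↔ inner ℝ a x = (1 : ℝ)) (h0 : ∀ x, x ∈ H.direction ↔ inner ℝ a x = (0 : ℝ))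
    (h : (inner ℝ a q - 1) * inner ℝ a v ≤ (0 : ℝ)) : Brief.Hits H q v := by
  by_cases hv : inner ℝ a v = (0 : ℝ)
  · exact Or.inr ((h0 v).2 hv)
  · left
    refine ⟨(1 - inner ℝ a q) / inner ℝ a v, ?_, ?_⟩
    · have h3 : (1 - inner ℝ a q) / inner ℝ a v =
          ((1 - inner ℝ a q) * inner ℝ a v) / (inner ℝ a v) ^ 2 := by
        field_simp
      rw [h3]
      apply div_nonneg _ (sq_nonneg _)
      linarith
    · show q + ((1 - inner ℝ a q) / inner ℝ a v) • v ∈ H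
      rw [h1, inner_add_right, inner_smul_right]
      field_simp
      ring

end FinkR

open FinkR in
/-- From vectors to hyperplanes. -/
theorem tFinkR (p : ℕ) (hp : p.Prime) (hp2 : p ≠ 2) (d l₀ : ℕ) (r : Fin (d - 2 * l₀ + 1) → ℕ)
    (A : Fin (d - 2 * l₀ + 1) → Finset (Aff d)) (hk1 : 1 ≤ l₀) (hkd : 2 * l₀ ≤ d)
    (hr : ∀ i, r i = 2 ∨ ∃ e, r i = p ^ e) (hA : ∀ i, IsArr (A i))
    (hcard : ∀ i, (A i).card = (2 * l₀ + 1) * (r i - 1) + 1)
    (hsp : ∀ i, r i = 2 → ∀ u : Brief.E d, u ≠ 0 → ∃ h ∈ A i, ¬ In (dir h) u)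
    (hdir : NoDirK r A) : ConclK (2 * l₀) r A := by
  have hr1 : ∀ i, 1 ≤ r i := by
    intro i
    rcases hr i with h | ⟨e, h⟩
    · omega
    · rw [h]
      exact Nat.one_le_pow _ _ hp.pos
  let e : ∀ i, A i ≃ Fin ((2 * l₀ + 1) * (r i - 1) + 1) :=
    fun i => Finset.equivFinOfCardEq (hcard i)
  let hh : ∀ i, Fin ((2 * l₀ + 1) * (r i - 1) + 1) → Aff d := fun i l => ((e i).symm l).1
  have hhmem : ∀ i l, hh i l ∈ A i := fun i l => ((e i).symm l).2
  have hhinj : ∀ i, Function.Injective (hh i) := by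
    intro i l l' h
    exact (e i).symm.injective (Subtype.ext h)
  have hhsurj : ∀ i, ∀ H ∈ A i, ∃ l, hh i l = H := by
    intro i H hH
    exact ⟨e i ⟨H, hH⟩, congrArg Subtype.val ((e i).symm_apply_apply ⟨H, hH⟩)⟩
  have hn : ∀ i l, ∃ a : Brief.E d, a ≠ 0 ∧ (∀ x, x ∈ hh i l ↔ inner ℝ a x = (1 : ℝ)) ∧
      ∀ x, x ∈ (hh i l).direction ↔ inner ℝ a x = (0 : ℝ) := by
    intro i l
    obtain ⟨g1, g2, g3⟩ := hA i _ (hhmem i l)
    exact hypStmt d _ g1 g2 g3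
  choose a ha0 ha1 had using hn
  obtain ⟨v, q, hli, hq, hT⟩ := Pool.Agent.MPc05127.PR.tGeoR p hp hp2 d l₀ hk1 hkd r hr a (by
    intro i hi u hu
    obtain ⟨H, hH, hHu⟩ := hsp i hi u hu
    obtain ⟨l, rfl⟩ := hhsurj i H hH
    exact ⟨l, fun h => hHu ((had i l u).2 h)⟩) (by
    intro u hu
    obtain ⟨i, hi⟩ := hdir u hu
    refine ⟨i, lt_of_le_of_lt ?_ hi⟩
    rw [← Finset.card_image_of_injective _ (hhinj i)]
    apply Finset.card_le_card
    intro h hm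
    obtain ⟨l, hl, rfl⟩ := Finset.mem_image.1 hm
    simp only [Finset.mem_filter, Finset.mem_univ, true_and] at hl
    exact Finset.mem_filter.2 ⟨hhmem i l, (had i l u).2 hl⟩)
  refine ⟨Submodule.span ℝ (Set.range v), ?_, q, hq, ?_⟩
  · show Module.finrank ℝ (Submodule.span ℝ (Set.range v)) = 2 * l₀
    rw [finrank_span_eq_card hli, Fintype.card_fin]
  intro i
  obtain ⟨P, hPd, hPv⟩ := hT i
  have hx0 : v ⟨0, by omega⟩ ≠ 0 := hli.ne_zero _
  have hxL : v ⟨0, by omega⟩ ∈ Submodule.span ℝ (Set.range v) :=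
    Submodule.subset_span (Set.mem_range_self _)
  have hpos : 0 < r i := hr1 i
  let c : Aff d → Fin (r i) := fun h =>
    if H : ∃ j, ∃ l ∈ P j, hh i l = h then H.choose else ⟨0, hpos⟩
  have hc : ∀ j, ∀ l ∈ P j, c (hh i l) = j := by
    intro j l hl
    have H : ∃ j', ∃ l' ∈ P j', hh i l' = hh i l := ⟨j, l, hl, rfl⟩
    have e1 : c (hh i l) = H.choose := dif_pos H
    obtain ⟨l', hl', e2⟩ := H.choose_spec
    have e3 := hhinj i e2
    subst e3
    rw [e1]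
    by_contra hne
    exact Finset.disjoint_left.1 (hPd _ _ hne) hl' hl
  refine ⟨fun j => (A i).filter (fun h => c h = j), ?_, ?_, ?_⟩
  · intro j j' hne
    rw [Finset.disjoint_left]
    intro h hm hm'
    exact hne ((Finset.mem_filter.1 hm).2.symm.trans (Finset.mem_filter.1 hm').2)
  · intro h
    constructor
    · intro hm
      exact ⟨c h, Finset.mem_filter.2 ⟨hm, rfl⟩⟩
    · rintro ⟨j, hm⟩
      exact (Finset.mem_filter.1 hm).1
  · intro j
    refine one_le_RD _ q _ _ hxL hx0 (fun w hw _ => ?_)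
    obtain ⟨l, hl, hle⟩ := hPv j w hw
    exact ⟨hh i l, Finset.mem_filter.2 ⟨hhmem i l, hc j l hl⟩,
      hits_of _ (a i l) q w (ha1 i l) (had i l) hle⟩

end Pool.Agent.Lib.MP_c05127_co.PP
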