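import Pool.Agent.Lib.MP_c05127_co.PR.Ker
import Pool.Agent.Lib.MP_c05127_co.PO.Fs

/-!
# MP_c05127_co, project PR: symmetry of the functions
-/

set_option autoImplicit false

open scoped Classical

namespace Pool.Agent.MPc05127.PR

open Pool.Agent.MPc05127.PP (E)
open Pool.Agent.MPc05127.PO
open Pool.Agent.MPc05127.PO.FsAux

section

variable {m l d p : ℕ} {e : Fin m → ℕ}

theorem reim_rot (u z w : ℂ) (hu : ‖u‖ = 1) :
    (u * z).im * (u * w).im + (u * z).re * (u * w).re = z.im * w.im + z.re * w.re := by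
  have h := Complex.sq_norm u
  rw [hu, Complex.normSq_apply] at h
  simp only [Complex.mul_re, Complex.mul_im]
  linear_combination (-(z.im * w.im) - z.re * w.re) * h

/-- The absolute values of the coefficients do not change if the vectors are rotated. -/
theorem mu_rot (a : Fin m → ℕ → E d) (X X' : Jo l e → ℕ → ℂ) (y y' : Fin l → ℂ) (i : Fin m)
    (u : Fin l → ℂ) (hu : ∀ c, ‖u c‖ = 1)
    (hF : ∀ c n, FO a X' y' i c n = u c * FO a X y i c n) (h : Ix l) :
    |mu a X' y' i h| = |mu a X y i h| := by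
  rw [← sq_eq_sq_iff_abs_eq_abs]
  unfold mu
  set B' := (Am a X' y' i).updateCol none (Pi.single h 1) with hB'
  set B := (Am a X y i).updateCol none (Pi.single h 1) with hB
  have h1 : B'.det ^ 2 = (B' * B'.transpose).det := by
    rw [Matrix.det_mul, Matrix.det_transpose, sq]
  have h2 : B.det ^ 2 = (B * B.transpose).det := by
    rw [Matrix.det_mul, Matrix.det_transpose, sq]
  rw [h1, h2]
  congr 1
  ext k k'
  rw [Matrix.mul_apply, Matrix.mul_apply, Fintype.sum_option, Fintype.sum_option,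
    Fintype.sum_option, Fintype.sum_option, Fintype.sum_prod_type, Fintype.sum_prod_type]
  refine congrArg₂ (· + ·) ?_ (congrArg₂ (· + ·) ?_ ?_)
  · have h9 : ∀ k, B' k none = (Pi.single h 1 : Ix l → ℝ) k := fun k => by
      rw [hB', Matrix.updateCol_self]
    have h10 : ∀ k, B k none = (Pi.single h 1 : Ix l → ℝ) k := fun k => by
      rw [hB, Matrix.updateCol_self]
    rw [Matrix.transpose_apply, Matrix.transpose_apply, h9, h9, h10, h10]
  · have h3 : ∀ k, B' k (some none) = 1 := fun k => by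
      rw [hB', Matrix.updateCol_ne (by simp)]
      rfl
    have h4 : ∀ k, B k (some none) = 1 := fun k => by
      rw [hB, Matrix.updateCol_ne (by simp)]
      rfl
    rw [Matrix.transpose_apply, Matrix.transpose_apply, h3, h3, h4, h4]
  · refine Finset.sum_congr rfl fun b _ => ?_
    have h5 : ∀ k, B' k (some (some (b, true))) = (u b * FO a X y i b (nb l k)).im := fun k => by
      rw [hB', Matrix.updateCol_ne (by simp), ← hF]
      rfl
    have h6 : ∀ k, B' k (some (some (b, false))) = (u b * FO a X y i b (nb l k)).re := fun k => by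
      rw [hB', Matrix.updateCol_ne (by simp), ← hF]
      rfl
    have h7 : ∀ k, B k (some (some (b, true))) = (FO a X y i b (nb l k)).im := fun k => by
      rw [hB, Matrix.updateCol_ne (by simp)]
      rfl
    have h8 : ∀ k, B k (some (some (b, false))) = (FO a X y i b (nb l k)).re := fun k => by
      rw [hB, Matrix.updateCol_ne (by simp)]
      rfl
    rw [Fintype.sum_bool, Fintype.sum_bool]
    simp only [Matrix.transpose_apply, h5, h6, h7, h8]
    exact reim_rot _ _ _ (hu b)

theorem GR_rot (c : ℝ) (a : Fin m → ℕ → E d) (X X' : Jo l e → ℕ → ℂ) (y y' : Fin l → ℂ)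
    (i : Fin m) (u : Fin l → ℂ) (hu : ∀ c, ‖u c‖ = 1)
    (hF : ∀ c n, FO a X' y' i c n = u c * FO a X y i c n) (b : Fin l) :
    GR c a X' y' i b = u b * GR c a X y i b := by
  have h1 := mu_rot a X X' y y' i u hu hF
  have h2 : Sm c a X' y' i = Sm c a X y i := by
    unfold Sm
    exact Finset.sum_congr rfl fun h _ => by rw [h1]
  unfold GR
  rw [Finset.mul_sum]
  refine Finset.sum_congr rfl fun h _ => ?_
  rw [h1, h2, hF]
  ring

theorem GR_inl (c : ℝ) (a : Fin m → ℕ → E d) (X : Jo l e → ℕ → ℂ) (q : Σ i : Fin m, Fin (e i))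
    (y : Fin l → ℂ) (i : Fin m) (b : Fin l) :
    GR c a (rX p (Sum.inl q) X) y i b = GR c a X y i b := by
  rw [GR_rot c a X (rX p (Sum.inl q) X) y y i (fun _ => 1) (fun _ => norm_one)
    (fun c n => by rw [FO_inl, one_mul]) b, one_mul]

theorem GR_inr (c : ℝ) (a : Fin m → ℕ → E d) (X : Jo l e → ℕ → ℂ) (b : Fin l)
    (y : Fin l → ℂ) (i : Fin m) (b' : Fin l) :
    GR c a (rX p (Sum.inr b) X) (rY p XQ (Sum.inr b : Jo l e) y) i b' =
      (if b' = b then om p else 1) * GR c a X y i b' := by
  refine GR_rot c a X _ y _ i (fun b' => if b' = b then om p else 1) (fun b' => ?_)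
    (fun c n => ?_) b'
  · by_cases h : b' = b
    · rw [if_pos h, norm_om]
    · rw [if_neg h, norm_one]
  · rw [FO_inr]
    by_cases h : c = b
    · rw [if_pos h, if_pos h]
    · rw [if_neg h, if_neg h, one_mul]

theorem fR_rad [NeZero p] (ρ : Fin m → Bool) (c : ℝ) (a : Fin m → ℕ → E d) (b : Fin l)
    (i : {i : Fin m // (i : ℕ) ≠ 0}) (X : Jo l e → ℕ → ℂ) (y : Fin l → ℂ) (hi : ρ i.1 = true) :
    fR p ρ c a (Sum.inr (Sum.inr (b, i)) : Cf p l e) X y = GR c a X y i.1 b := if_pos hi

theorem fR_nrad [NeZero p] (ρ : Fin m → Bool) (c : ℝ) (a : Fin m → ℕ → E d) (b : Fin l)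
    (i : {i : Fin m // (i : ℕ) ≠ 0}) (X : Jo l e → ℕ → ℂ) (y : Fin l → ℂ) (hi : ¬ ρ i.1 = true) :
    fR p ρ c a (Sum.inr (Sum.inr (b, i)) : Cf p l e) X y =
      fo p a (Sum.inr (Sum.inr (b, i)) : Cf p l e) X y := if_neg hi

/-- The symmetry of the functions. -/
theorem tFsR (hFs : S_Fs) [NeZero p] (hp : 2 ≤ p) [NeZero m] (ρ : Fin m → Bool) (c : ℝ)
    (a : Fin m → ℕ → E d) (j : Jo l e) (z : (Jo l e → ℕ → ℂ) × (Fin l → ℂ))
    (hz : z ∈ (DomO (no p) : Set ((Jo l e → ℕ → ℂ) × (Fin l → ℂ)))) (h0 : z.1 j (no p j) = 0) :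
    (∀ x : Cf p l e, fR p ρ c a x (rX p j z.1) (rY p XQ j z.2) =
      om p ^ XO x j * fR p ρ c a x z.1 z.2) ∧
    ∀ b, gR p ρ c a b (rX p j z.1) (rY p XQ j z.2) = om p ^ XQ b j * gR p ρ c a b z.1 z.2 := by
  obtain ⟨hf, hg⟩ := hFs p hp m l d e a j z hz h0
  constructor
  · intro x
    have h1 := hf x
    rcases x with ⟨i, χ, _ | ⟨b, s⟩⟩ | (b | ⟨q, s⟩) | ⟨b, i⟩
    · exact h1
    · exact h1
    · exact h1
    · exact h1
    · by_cases hi : ρ i.1 = true
      · rw [fR_rad ρ c a b i _ _ hi, fR_rad ρ c a b i _ _ hi, XO_6]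
        rcases j with q | b'
        · rw [rY_inl, GR_inl, if_neg (fun h => by cases h), zpow_zero, one_mul]
        · rw [GR_inr]
          by_cases hb : b = b'
          · rw [if_pos hb, if_pos (by rw [hb]), zpow_one]
          · rw [if_neg hb, if_neg (fun h => hb (Sum.inr_injective h).symm), zpow_zero]
      · rw [fR_nrad ρ c a b i _ _ hi, fR_nrad ρ c a b i _ _ hi]
        exact h1
  · intro b
    by_cases hρ : ρ 0 = true
    · unfold gR
      rw [if_pos hρ, if_pos hρ]
      rcases j with q | b'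
      · have hX : XQ b (Sum.inl q : Jo l e) = 0 := by
          unfold XQ
          rw [if_neg (fun h => by cases h)]
        rw [hX, zpow_zero, one_mul, rY_inl, GR_inl, vR_inl, vI_inl]
      · have hX : XQ b (Sum.inr b' : Jo l e) = if b = b' then 1 else 0 := by
          unfold XQ
          by_cases hc : b = b'
          · rw [if_pos hc, if_pos (by rw [hc])]
          · rw [if_neg hc, if_neg (fun h => hc (Sum.inr_injective h).symm)]
        have hy : rY p XQ (Sum.inr b' : Jo l e) z.2 b =
            om p ^ (if b = b' then (1 : ℤ) else 0) * z.2 b := by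
          rw [← hX]
          rfl
        have hu : (if b = b' then om p else 1) = om p ^ (if b = b' then (1 : ℤ) else 0) := by
          by_cases hc : b = b'
          · rw [if_pos hc, if_pos hc, zpow_one]
          · rw [if_neg hc, if_neg hc, zpow_zero]
        rw [hX]
        unfold su
        rw [GR_inr, hu, norm_rY, norm_inr, hy]
        ring
    · unfold gR
      rw [if_neg hρ, if_neg hρ]
      exact hg b

end

end Pool.Agent.MPc05127.PR
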