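import Pool.Agent.Lib.MP_c05127_co.PR.It
import Pool.Agent.Lib.MP_c05127_co.PO.All

/-!
# MP_c05127_co, project PR: the vector statement
-/

set_option autoImplicit false

open scoped Classical

namespace Pool.Agent.MPc05127.PR

open Pool.Agent.MPc05127.PP (E)
open Pool.Agent.MPc05127.PO

/-- The vector statement, with separate data for the two kinds of families. -/
theorem tGeoA (p : ℕ) (hp : p.Prime) (hp2 : p ≠ 2) (d l : ℕ) (hl : 1 ≤ l) (hld : 2 * l ≤ d)
    (e : Fin (d - 2 * l + 1) → ℕ) (ρ : Fin (d - 2 * l + 1) → Bool)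
    (a : Fin (d - 2 * l + 1) → ℕ → E d)
    (hsp : ∀ i, ρ i = true → ∀ u : E d, u ≠ 0 → ∃ h < 2 * l + 2, inner ℝ (a i h) u ≠ (0 : ℝ))
    (hnd : ∀ u : E d, u ≠ 0 → ∃ i, (ρ i = true ∧
        ((Finset.range (2 * l + 2)).filter (fun h => inner ℝ (a i h) u = (0 : ℝ))).card < 2) ∨
      (¬ ρ i = true ∧ ((Finset.range ((2 * l + 1) * (p ^ e i - 1) + 1)).filter
        (fun h => inner ℝ (a i h) u = (0 : ℝ))).card < p ^ e i)) :
    ∃ (v : Fin l × Bool → E d) (q : E d), LinearIndependent ℝ v ∧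
      q ∈ Submodule.span ℝ (Set.range v) ∧
      (∀ i, ¬ ρ i = true → ∃ P : (Fin (e i) → ZMod p) → Finset ℕ,
        (∀ g g', g ≠ g' → Disjoint (P g) (P g')) ∧
        (∀ g, ∀ h ∈ P g, h ≤ (2 * l + 1) * (p ^ e i - 1)) ∧
        ∀ g, ∀ w ∈ Submodule.span ℝ (Set.range v), ∃ h ∈ P g,
          (inner ℝ (a i h) q - 1) * inner ℝ (a i h) w ≤ (0 : ℝ)) ∧
      ∀ i, ρ i = true → ∃ P : Bool → Finset ℕ, Disjoint (P true) (P false) ∧
        (∀ g, ∀ h ∈ P g, h < 2 * l + 2) ∧
        ∀ g, ∀ w ∈ Submodule.span ℝ (Set.range v), ∃ h ∈ P g,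
          (inner ℝ (a i h) q - 1) * inner ℝ (a i h) w ≤ (0 : ℝ) := by
  have : NeZero p := ⟨hp.ne_zero⟩
  have hLe : S_PLe := Pool.Agent.MPc05127.PP.allLe
  have hSg := tSg tAx
  have hPs := tPs hLe
  have hFm := tFm tCn
  have hOr := tOr hFm
  have hFc := tFc hSg (tPq hLe)
  have hFs := tFs hSg tPr
  have hcnt := (tCn p hp hp2 d l hl hld e).1
  obtain ⟨z, hz, ν, τ, hw, hf, hg⟩ := tLim allPo tBl hFc hFs hFm p hp hp2 d l hl hld e ρ a
  rcases le_or_gt (1 / 2) ‖z.2‖ with hn | hn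
  · exfalso
    obtain ⟨u, hu, h1, h2⟩ := tInR hSg tPr hPs hOr p hp hp2 d l hl hld e ρ a z hz ν τ hw hf hg hn
    obtain ⟨i, ⟨hi, hc⟩ | ⟨hi, hc⟩⟩ := hnd u hu
    · obtain ⟨h, h', hne, h3, h4⟩ := h2 i hi
      have h5 : ({((nb l h : Fin (2 * l + 2)) : ℕ), ((nb l h' : Fin (2 * l + 2)) : ℕ)} : Finset ℕ) ⊆
          (Finset.range (2 * l + 2)).filter (fun h => inner ℝ (a i h) u = (0 : ℝ)) := by
        intro k hk
        rcases Finset.mem_insert.1 hk with rfl | hk
        · exact Finset.mem_filter.2 ⟨Finset.mem_range.2 (nb l h).2, h3⟩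
        · rw [Finset.mem_singleton] at hk
          subst hk
          exact Finset.mem_filter.2 ⟨Finset.mem_range.2 (nb l h').2, h4⟩
      have h6 : ((nb l h : Fin (2 * l + 2)) : ℕ) ≠ ((nb l h' : Fin (2 * l + 2)) : ℕ) := fun h7 =>
        hne ((nb l).injective (Fin.ext h7))
      have h8 := Finset.card_le_card h5
      rw [Finset.card_pair h6] at h8
      omega
    · have h3 := h1 i hi
      rw [hcnt i] at h3
      omega
  · obtain ⟨v, q, hv, hq, hP, hQ⟩ := tItR hSg tPr hPs hOr p hp hp2 d l hl hld e ρ a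
      (fun i hi u hu => by
        obtain ⟨h, hh, hne⟩ := hsp i hi u hu
        refine ⟨(nb l).symm ⟨h, hh⟩, ?_⟩
        rw [Equiv.apply_symm_apply]
        exact hne) z hz ν τ hw hf hg hn
    refine ⟨v, q, hv, hq, fun i hi => ?_, fun i hi => ?_⟩
    · obtain ⟨P, hP1, hP2, hP3⟩ := hP i hi
      refine ⟨P, hP1, fun g h hh => ?_, hP3⟩
      rw [← hcnt i]
      exact hP2 g h hh
    · obtain ⟨P, hP1, hP2⟩ := hQ i hi
      refine ⟨fun g => (P g).image (fun k => ((nb l k : Fin (2 * l + 2)) : ℕ)), ?_,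
        fun g h hh => ?_, fun g w hw' => ?_⟩
      · rw [Finset.disjoint_left]
        intro h hh hh'
        obtain ⟨k, hk, rfl⟩ := Finset.mem_image.1 hh
        obtain ⟨k', hk', h3⟩ := Finset.mem_image.1 hh'
        have h4 : k' = k := (nb l).injective (Fin.ext h3)
        subst h4
        exact (Finset.disjoint_left.1 hP1) hk hk'
      · obtain ⟨k, hk, rfl⟩ := Finset.mem_image.1 hh
        exact (nb l k).2
      · obtain ⟨k, hk, h3⟩ := hP2 g w hw'
        exact ⟨_, Finset.mem_image_of_mem _ hk, h3⟩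

/-- The vector statement. -/
theorem tGeoR (p : ℕ) (hp : p.Prime) (hp2 : p ≠ 2) (d l : ℕ) (hl : 1 ≤ l) (hld : 2 * l ≤ d)
    (r : Fin (d - 2 * l + 1) → ℕ) (hr : ∀ i, r i = 2 ∨ ∃ e, r i = p ^ e)
    (a : (i : Fin (d - 2 * l + 1)) → Fin ((2 * l + 1) * (r i - 1) + 1) → E d)
    (hsp : ∀ i, r i = 2 → ∀ u : E d, u ≠ 0 → ∃ h, inner ℝ (a i h) u ≠ (0 : ℝ))
    (hnd : ∀ u : E d, u ≠ 0 →
      ∃ i, (Finset.univ.filter (fun h => inner ℝ (a i h) u = (0 : ℝ))).card < r i) :
    ∃ (v : Fin (2 * l) → E d) (q : E d), LinearIndependent ℝ v ∧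
      q ∈ Submodule.span ℝ (Set.range v) ∧
      ∀ i, ∃ P : Fin (r i) → Finset (Fin ((2 * l + 1) * (r i - 1) + 1)),
        (∀ j j', j ≠ j' → Disjoint (P j) (P j')) ∧
        ∀ j, ∀ w ∈ Submodule.span ℝ (Set.range v), ∃ h ∈ P j,
          (inner ℝ (a i h) q - 1) * inner ℝ (a i h) w ≤ (0 : ℝ) := by
  have hodd : ∀ e, p ^ e ≠ 2 := by
    intro e he
    rcases Nat.eq_zero_or_pos e with h0 | h0
    · rw [h0, pow_zero] at he
      omega
    · have h1 : p ∣ 2 := he ▸ dvd_pow_self p h0.ne'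
      exact hp2 ((Nat.prime_dvd_prime_iff_eq hp Nat.prime_two).1 h1)
  set ρ : Fin (d - 2 * l + 1) → Bool := fun i => decide (r i = 2) with hρ
  have hρ1 : ∀ i, ρ i = true ↔ r i = 2 := fun i => by
    simp only [hρ]
    exact decide_eq_true_iff
  have he : ∀ i, ∃ e, ¬ r i = 2 → r i = p ^ e := by
    intro i
    rcases hr i with h | ⟨e, h⟩
    · exact ⟨0, fun h' => absurd h h'⟩
    · exact ⟨e, fun _ => h⟩
  choose e he using he
  set a' : Fin (d - 2 * l + 1) → ℕ → E d := fun i h =>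
    if hh : h < (2 * l + 1) * (r i - 1) + 1 then a i ⟨h, hh⟩ else 0 with ha'
  have ha'v : ∀ (i : Fin (d - 2 * l + 1)) (h : ℕ) (hh : h < (2 * l + 1) * (r i - 1) + 1),
      a' i h = a i ⟨h, hh⟩ := by
    intro i h hh
    rw [ha']
    exact dif_pos hh
  have hcard : ∀ (i : Fin (d - 2 * l + 1)) (u : E d) (N : ℕ),
      N = (2 * l + 1) * (r i - 1) + 1 →
      ((Finset.range N).filter (fun h => inner ℝ (a' i h) u = (0 : ℝ))).card ≤
      (Finset.univ.filter (fun h => inner ℝ (a i h) u = (0 : ℝ))).card := by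
    intro i u N hN
    have h2 : (Finset.range N).filter (fun h => inner ℝ (a' i h) u = (0 : ℝ)) ⊆
        (Finset.univ.filter (fun l => inner ℝ (a i l) u = (0 : ℝ))).image
          (fun h : Fin ((2 * l + 1) * (r i - 1) + 1) => (h : ℕ)) := by
      intro h hh
      obtain ⟨hh1, hh2⟩ := Finset.mem_filter.1 hh
      have hh3 := Finset.mem_range.1 hh1
      rw [hN] at hh3
      rw [ha'v i h hh3] at hh2
      exact Finset.mem_image.2 ⟨⟨h, hh3⟩, Finset.mem_filter.2 ⟨Finset.mem_univ _, hh2⟩, rfl⟩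
    exact (Finset.card_le_card h2).trans Finset.card_image_le
  obtain ⟨v, q, hv, hq, hP, hQ⟩ := tGeoA p hp hp2 d l hl hld e ρ a'
    (fun i hi u hu => by
      obtain ⟨h, hne⟩ := hsp i ((hρ1 i).1 hi) u hu
      have hr2 := (hρ1 i).1 hi
      refine ⟨h, ?_, ?_⟩
      · have h1 : (h : ℕ) < (2 * l + 1) * (r i - 1) + 1 := h.2
        have h5 : (2 * l + 1) * (r i - 1) + 1 = 2 * l + 2 := by rw [hr2]; omega
        omega
      · rw [ha'v i h h.2]
        exact hne)
    (fun u hu => by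
      obtain ⟨i, hi⟩ := hnd u hu
      refine ⟨i, ?_⟩
      by_cases h2 : r i = 2
      · left
        refine ⟨(hρ1 i).2 h2, ?_⟩
        have h3 := hcard i u (2 * l + 2) (by rw [h2]; omega)
        omega
      · right
        refine ⟨fun h => h2 ((hρ1 i).1 h), ?_⟩
        have h3 := hcard i u ((2 * l + 1) * (p ^ e i - 1) + 1) (by rw [he i h2])
        rw [← he i h2] at h3 ⊢
        omega)
  have hc2 : Fintype.card (Fin l × Bool) = 2 * l := by
    rw [Fintype.card_prod, Fintype.card_fin, Fintype.card_bool, mul_comm]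
  set ε : Fin l × Bool ≃ Fin (2 * l) := Fintype.equivFinOfCardEq hc2 with hε
  have hrange : Set.range (v ∘ ε.symm) = Set.range v := ε.symm.surjective.range_comp v
  refine ⟨v ∘ ε.symm, q, (linearIndependent_equiv ε.symm).2 hv, by rwa [hrange], fun i => ?_⟩
  by_cases h2 : r i = 2
  · obtain ⟨P, hP1, hP2, hP3⟩ := hQ i ((hρ1 i).2 h2)
    refine ⟨fun j => Finset.univ.filter
      (fun h : Fin ((2 * l + 1) * (r i - 1) + 1) => (h : ℕ) ∈ P (decide ((j : ℕ) = 0))), ?_, ?_⟩
    · intro j j' hj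
      have hj1 := j.2
      have hj2 := j'.2
      have hj3 : (j : ℕ) ≠ (j' : ℕ) := fun h => hj (Fin.ext h)
      have hne : decide ((j : ℕ) = 0) ≠ decide ((j' : ℕ) = 0) := by
        intro h
        rw [decide_eq_decide] at h
        omega
      have hdis : Disjoint (P (decide ((j : ℕ) = 0))) (P (decide ((j' : ℕ) = 0))) := by
        cases h5 : decide ((j : ℕ) = 0)
        · cases h6 : decide ((j' : ℕ) = 0)
          · rw [h5, h6] at hne
            exact absurd rfl hne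
          · exact hP1.symm
        · cases h6 : decide ((j' : ℕ) = 0)
          · exact hP1
          · rw [h5, h6] at hne
            exact absurd rfl hne
      rw [Finset.disjoint_left]
      intro h hh hh'
      exact (Finset.disjoint_left.1 hdis) (Finset.mem_filter.1 hh).2 (Finset.mem_filter.1 hh').2
    · intro j w hw
      rw [hrange] at hw
      obtain ⟨h, hh, hh2⟩ := hP3 _ w hw
      have h1 := hP2 _ h hh
      have h4 : h < (2 * l + 1) * (r i - 1) + 1 := by
        rw [h2]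
        omega
      rw [ha'v i h h4] at hh2
      exact ⟨⟨h, h4⟩, Finset.mem_filter.2 ⟨Finset.mem_univ _, hh⟩, hh2⟩
  · obtain ⟨P, hP1, hP2, hP3⟩ := hP i (fun h => h2 ((hρ1 i).1 h))
    have : NeZero p := ⟨hp.ne_zero⟩
    have hc : Fintype.card (Fin (e i) → ZMod p) = r i := by
      rw [Fintype.card_fun, ZMod.card, Fintype.card_fin, ← he i h2]
    set eq : (Fin (e i) → ZMod p) ≃ Fin (r i) := Fintype.equivFinOfCardEq hc with heq
    refine ⟨fun j => Finset.univ.filter
      (fun h : Fin ((2 * l + 1) * (r i - 1) + 1) => (h : ℕ) ∈ P (eq.symm j)), ?_, ?_⟩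
    · intro j j' hj
      rw [Finset.disjoint_left]
      intro h hh hh'
      have h1 := (Finset.mem_filter.1 hh).2
      have h2 := (Finset.mem_filter.1 hh').2
      have h3 := hP1 (eq.symm j) (eq.symm j') (fun h => hj (eq.symm.injective h))
      exact (Finset.disjoint_left.1 h3) h1 h2
    · intro j w hw
      rw [hrange] at hw
      obtain ⟨h, hh, hh2⟩ := hP3 (eq.symm j) w hw
      have h1 := hP2 (eq.symm j) h hh
      rw [← he i h2] at h1
      have h4 : h < (2 * l + 1) * (r i - 1) + 1 := by omega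
      rw [ha'v i h h4] at hh2
      exact ⟨⟨h, h4⟩, Finset.mem_filter.2 ⟨Finset.mem_univ _, hh⟩, hh2⟩

end Pool.Agent.MPc05127.PR
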