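import Pool.Agent.Lib.MP_c05127_co.PR.Lim

/-!
# MP_c05127_co, project PR: zeros at infinity are excluded
-/

set_option autoImplicit false

open scoped Classical

namespace Pool.Agent.MPc05127.PR

open Pool.Agent.MPc05127.PP (E idx len)
open Pool.Agent.MPc05127.PO
open Pool.Agent.MPc05127.PO.FsAux

/-- The vectors, replaced by `0` for the families with two parts. -/
noncomputable def az {m d : ℕ} (ρ : Fin m → Bool) (a : Fin m → ℕ → E d) : Fin m → ℕ → E d :=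
  fun i h => if ρ i then 0 else a i h

theorem FO_az1 {m l d : ℕ} {e : Fin m → ℕ} (ρ : Fin m → Bool) (a : Fin m → ℕ → E d)
    (X : Jo l e → ℕ → ℂ) (y : Fin l → ℂ) (i : Fin m) (b : Fin l) (hi : ρ i = true) :
    FO (az ρ a) X y i b = fun _ => 0 := by
  funext h
  unfold FO az
  rw [if_pos hi, inner_zero_left, inner_zero_left]
  apply Complex.ext <;> simp

theorem FO_az2 {m l d : ℕ} {e : Fin m → ℕ} (ρ : Fin m → Bool) (a : Fin m → ℕ → E d)
    (X : Jo l e → ℕ → ℂ) (y : Fin l → ℂ) (i : Fin m) (b : Fin l) (hi : ¬ ρ i = true) :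
    FO (az ρ a) X y i b = FO a X y i b := by
  funext h
  unfold FO az
  rw [if_neg hi]

theorem phc_fun0 {s p : ℕ} (n : Fin s → ℕ) (Z : Fin s → ℕ → ℂ) (χ : Fin s → ZMod p) :
    phc n Z χ (fun _ => 0) = 0 := by
  unfold phc
  exact Finset.sum_eq_zero fun α _ => mul_zero _

theorem fo_az {m l d p : ℕ} [NeZero p] {e : Fin m → ℕ} (ρ : Fin m → Bool) (W : Fin m → Ix l → ℝ)
    (a : Fin m → ℕ → E d) (X : Jo l e → ℕ → ℂ) (y : Fin l → ℂ)
    (hf : ∀ x : Cf p l e, fL p ρ W a x X y = 0) (x : Cf p l e) : fo p (az ρ a) x X y = 0 := by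
  have h1 := hf x
  rcases x with ⟨i, χ, _ | ⟨b, s⟩⟩ | (b | ⟨q, s⟩) | ⟨b, i⟩
  · exact h1
  · by_cases hi : ρ i = true
    · rw [fo_some, FO_az1 ρ a X y i b hi]
      have h2 : (fun _ : ℕ => if s then (0 : ℂ) else (starRingEnd ℂ) 0) = fun _ => 0 := by
        funext h
        cases s <;> simp
      rw [h2, phc_fun0]
    · rw [fo_some, FO_az2 ρ a X y i b hi]
      exact h1
  · exact h1
  · exact h1
  · by_cases hi : ρ i.1 = true
    · rw [fo_0, FO_az1 ρ a X y i.1 b hi, phc_fun0]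
    · rw [fo_0, FO_az2 ρ a X y i.1 b hi]
      have h2 : fL p ρ W a (Sum.inr (Sum.inr (b, i)) : Cf p l e) X y =
          fo p a (Sum.inr (Sum.inr (b, i)) : Cf p l e) X y := if_neg hi
      rw [h2] at h1
      exact h1

private theorem In_tu {l : ℕ} {y : Fin l → ℂ} (h : 1 / 2 ≤ ‖y‖) : tu y = 0 := by
  unfold tu
  exact max_eq_left (by linarith)

private theorem In_su0 {l : ℕ} (y : Fin l → ℂ) : 0 ≤ su y := le_max_left _ _

private theorem In_su1 {l : ℕ} {y : Fin l → ℂ} (h : ‖y‖ ≤ 1) : su y ≤ 1 := by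
  unfold su
  exact max_le (by norm_num) (by linarith)

/-- the weighted sum without labels -/
private noncomputable def wr {s : ℕ} (n : Fin s → ℕ) (Z : Fin s → ℕ → ℂ) (F : ℕ → ℝ) : ℝ :=
  ∑ α ∈ idx n, len n (fun t b => ‖Z t b‖) α * F (∑ t, α t)

private theorem phc_zero {s p : ℕ} (n : Fin s → ℕ) (Z : Fin s → ℕ → ℂ) (F : ℕ → ℂ) :
    phc n Z (0 : Fin s → ZMod p) F =
      ∑ α ∈ idx n, (len n (fun t b => ‖Z t b‖) α : ℂ) * F (∑ t, α t) := by
  unfold phc
  refine Finset.sum_congr rfl fun α _ => ?_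
  have h1 : ∏ t, dn (Z t (α t)) ^ ((0 : Fin s → ZMod p) t).val = 1 := by
    refine Finset.prod_eq_one fun t _ => ?_
    rw [Pi.zero_apply, ZMod.val_zero, pow_zero]
  rw [h1, mul_one]

private theorem phc_re {s p : ℕ} (n : Fin s → ℕ) (Z : Fin s → ℕ → ℂ) (F : ℕ → ℂ) :
    (phc n Z (0 : Fin s → ZMod p) F).re = wr n Z (fun h => (F h).re) := by
  rw [phc_zero, Complex.re_sum]
  unfold wr
  refine Finset.sum_congr rfl fun α _ => ?_
  rw [Complex.re_ofReal_mul]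

private theorem phc_real {s p : ℕ} (n : Fin s → ℕ) (Z : Fin s → ℕ → ℂ) (F : ℕ → ℝ) :
    phc n Z (0 : Fin s → ZMod p) (fun h => (F h : ℂ)) = (wr n Z F : ℂ) := by
  rw [phc_zero]
  unfold wr
  push_cast
  rfl

private theorem wr_nn {s : ℕ} (n : Fin s → ℕ) (Z : Fin s → ℕ → ℂ) (F : ℕ → ℝ)
    (hF : ∀ h, 0 ≤ F h) : 0 ≤ wr n Z F := by
  unfold wr
  exact Finset.sum_nonneg fun α _ => mul_nonneg (le_max_left _ _) (hF _)

private theorem wr_neg {s : ℕ} (n : Fin s → ℕ) (Z : Fin s → ℕ → ℂ) (F : ℕ → ℝ) :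
    wr n Z (fun h => -F h) = -wr n Z F := by
  unfold wr
  rw [← Finset.sum_neg_distrib]
  exact Finset.sum_congr rfl fun α _ => by ring

private theorem In_sum {m l d : ℕ} {e : Fin m → ℕ} (a : Fin m → ℕ → E d)
    (X : Jo l e → ℕ → ℂ) (y : Fin l → ℂ) (i : Fin m) (h : ℕ) (h0 : tu y = 0) :
    (∑ b, (starRingEnd ℂ) (y b) * FO a X y i b h).re = -(inner ℝ (a i h) (uo d X y) ^ 2) := by
  have h1 : ∀ b, ((starRingEnd ℂ) (y b) * FO a X y i b h).re =
      -(inner ℝ (a i h) (uo d X y)) * ((y b).re * inner ℝ (a i h) (vR d X b) +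
        (y b).im * inner ℝ (a i h) (vI d X b)) := by
    intro b
    unfold FO
    rw [h0, Complex.mul_re, Complex.re_ofReal_mul, Complex.im_ofReal_mul, Complex.conj_re,
      Complex.conj_im]
    ring
  rw [Complex.re_sum, Finset.sum_congr rfl fun b _ => h1 b, ← Finset.mul_sum]
  have h2 : ∑ b, ((y b).re * inner ℝ (a i h) (vR d X b) +
        (y b).im * inner ℝ (a i h) (vI d X b)) = inner ℝ (a i h) (uo d X y) := by
    unfold uo
    rw [inner_sum]
    exact Finset.sum_congr rfl fun b _ => by rw [inner_add_right, inner_smul_right, inner_smul_right]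
  rw [h2]
  ring

private theorem In_card {N : ℕ} {κ : Type} [Fintype κ] (P : κ → Finset ℕ)
    (hP1 : ∀ g g', g ≠ g' → Disjoint (P g) (P g')) (hP2 : ∀ g, ∀ h ∈ P g, h ≤ N)
    (hP3 : ∀ g, (P g).Nonempty) (q : ℕ → Prop) (hq : ∀ g, ∀ h ∈ P g, q h) :
    Fintype.card κ ≤ ((Finset.range (N + 1)).filter q).card := by
  choose f hf using hP3
  have hinj : Function.Injective f := by
    intro g g' h
    by_contra hne
    exact (Finset.disjoint_left.1 (hP1 g g' hne)) (hf g) (h ▸ hf g')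
  rw [← Finset.card_univ]
  refine Finset.card_le_card_of_injOn f (fun g _ => ?_) hinj.injOn
  exact Finset.mem_coe.2 (Finset.mem_filter.2
    ⟨Finset.mem_range.2 (Nat.lt_succ_of_le (hP2 g _ (hf g))), hq g _ (hf g)⟩)

private theorem In_u0 {m l d : ℕ} {e : Fin m → ℕ} (X : Jo l e → ℕ → ℂ) (y : Fin l → ℂ)
    (hv : ∀ b, vR d X b ≠ 0 ∧ ‖vI d X b‖ = ‖vR d X b‖)
    (hort : ∀ x x' : Fin l × Bool, x ≠ x' → inner ℝ (fr d X x) (fr d X x') = (0 : ℝ))
    (hy : ∃ b, y b ≠ 0) : uo d X y ≠ 0 := by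
  intro h0
  have hne : ∀ x : Fin l × Bool, fr d X x ≠ 0 := by
    rintro ⟨b, s⟩
    cases s
    · exact (hv b).1
    · show vI d X b ≠ 0
      rw [← norm_ne_zero_iff, (hv b).2, norm_ne_zero_iff]
      exact (hv b).1
  have hli : LinearIndependent ℝ (fr d X) :=
    linearIndependent_of_ne_zero_of_inner_eq_zero hne (fun x x' h => hort x x' h)
  have h1 : ∑ x : Fin l × Bool, (if x.2 then (y x.1).im else (y x.1).re) • fr d X x = 0 := by
    rw [Fintype.sum_prod_type, ← h0]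
    unfold uo
    refine Finset.sum_congr rfl fun b _ => ?_
    rw [Fintype.sum_bool, add_comm]
    rfl
  have h2 := Fintype.linearIndependent_iff.1 hli _ h1
  obtain ⟨b, hb⟩ := hy
  exact hb (Complex.ext (h2 (b, false)) (h2 (b, true)))

/-- The Miranda family. -/
private theorem In_mir {l : ℕ} (y V : Fin l → ℂ) (g : Fin l → ℝ) (q : ℝ)
    (hq : (∑ b, (starRingEnd ℂ) (y b) * V b).re = -q) (hq0 : 0 ≤ q) (hs0 : 0 ≤ su y)
    (hs1 : su y ≤ 1) (hg : ∀ b, 0 < g b) (hy0 : ∃ b, y b ≠ 0)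
    (h : ∀ b, -((1 - su y : ℝ) * V b) + ((su y * g b : ℝ) : ℂ) * y b = 0) : q = 0 := by
  have hS : 0 < ∑ b, ‖y b‖ ^ 2 * g b := by
    obtain ⟨b, hb⟩ := hy0
    refine Finset.sum_pos' (fun b' _ => mul_nonneg (sq_nonneg _) (hg b').le)
      ⟨b, Finset.mem_univ _, ?_⟩
    have h2 := norm_pos_iff.2 hb
    have h3 := hg b
    positivity
  have h1 : (∑ b, (starRingEnd ℂ) (y b) *
      (-((1 - su y : ℝ) * V b) + ((su y * g b : ℝ) : ℂ) * y b)).re = 0 := by
    rw [Finset.sum_eq_zero fun b _ => by rw [h b, mul_zero], Complex.zero_re]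
  have h2 : ∀ b, (starRingEnd ℂ) (y b) *
      (-((1 - su y : ℝ) * V b) + ((su y * g b : ℝ) : ℂ) * y b) =
      ((-(1 - su y) : ℝ) : ℂ) * ((starRingEnd ℂ) (y b) * V b) +
        ((su y * (‖y b‖ ^ 2 * g b) : ℝ) : ℂ) := by
    intro b
    have h3 : (starRingEnd ℂ) (y b) * y b = ((‖y b‖ ^ 2 : ℝ) : ℂ) := by
      rw [mul_comm, Complex.mul_conj, Complex.normSq_eq_norm_sq]
    rw [mul_add, show (starRingEnd ℂ) (y b) * (((su y * g b : ℝ) : ℂ) * y b) =
      ((su y * g b : ℝ) : ℂ) * ((starRingEnd ℂ) (y b) * y b) by ring, h3]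
    push_cast
    ring
  rw [Finset.sum_congr rfl fun b _ => h2 b, Finset.sum_add_distrib, ← Finset.mul_sum,
    ← Complex.ofReal_sum, Complex.add_re, Complex.re_ofReal_mul, hq, Complex.ofReal_re,
    ← Finset.mul_sum] at h1
  have h3 := mul_nonneg (sub_nonneg.2 hs1) hq0
  have h4 := mul_nonneg hs0 hS.le
  have h5 : su y * ∑ b, ‖y b‖ ^ 2 * g b = 0 := by linarith
  have h6 : su y = 0 := (mul_eq_zero.1 h5).resolve_right hS.ne'
  rw [h6] at h1
  linarith

theorem two_of_sum {ι : Type} [Fintype ι] (ν : ι → ℝ) (h1 : ∑ h, |ν h| = 1) (h0 : ∑ h, ν h = 0) :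
    ∃ h h', h ≠ h' ∧ ν h ≠ 0 ∧ ν h' ≠ 0 := by
  have h2 : ∃ h, ν h ≠ 0 := by
    by_contra hcon
    push Not at hcon
    rw [Finset.sum_eq_zero fun h _ => by rw [hcon h, abs_zero]] at h1
    exact zero_ne_one h1
  obtain ⟨h, hh⟩ := h2
  by_contra hcon
  push Not at hcon
  have h3 : ∀ h', h' ≠ h → ν h' = 0 := fun h' hne => hcon h h' (Ne.symm hne) hh
  rw [Finset.sum_eq_single h (fun h' _ hne => h3 h' hne) fun hn => absurd (Finset.mem_univ h) hn]
    at h0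
  exact hh h0

/-- Zeros at infinity. -/
theorem tInR (hSg : S_Sg) (hPr : S_Pr) (hPs : S_Ps) (hOr : S_Or) (p : ℕ) [NeZero p]
    (hp : p.Prime) (hp2 : p ≠ 2) (d l : ℕ) (hl : 1 ≤ l) (hld : 2 * l ≤ d)
    (e : Fin (d - 2 * l + 1) → ℕ) (ρ : Fin (d - 2 * l + 1) → Bool)
    (a : Fin (d - 2 * l + 1) → ℕ → E d) (z : (Jo l e → ℕ → ℂ) × (Fin l → ℂ))
    (hz : z ∈ (DomO (no p) : Set ((Jo l e → ℕ → ℂ) × (Fin l → ℂ))))
    (ν : Fin (d - 2 * l + 1) → Ix l → ℝ) (τ : Fin (d - 2 * l + 1) → ℝ)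
    (hw : ∀ i, Wts a z.1 z.2 i (ν i) (τ i))
    (hf : ∀ x : Cf p l e, fL p ρ (fun i h => |ν i h| + τ i) a x z.1 z.2 = 0)
    (hg : ∀ b, gL p ρ (fun i h => |ν i h| + τ i) a b z.1 z.2 = 0) (hy : 1 / 2 ≤ ‖z.2‖) :
    ∃ u : E d, u ≠ 0 ∧ (∀ i, ¬ ρ i = true → p ^ e i ≤
      ((Finset.range (∑ t, n2 p l e i t + 1)).filter (fun h => inner ℝ (a i h) u = (0 : ℝ))).card) ∧
      ∀ i, ρ i = true → ∃ h h' : Ix l, h ≠ h' ∧ inner ℝ (a i (nb l h)) u = (0 : ℝ) ∧
        inner ℝ (a i (nb l h')) u = (0 : ℝ) := by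
  obtain ⟨hv, hort⟩ := hOr p hp hp2 d l hl hld e (az ρ a) z hz (fo_az ρ _ a z.1 z.2 hf)
  have hτ := In_tu hy
  have hy1 : ‖z.2‖ ≤ 1 := (pi_norm_le_iff_of_nonneg zero_le_one).2 hz.2
  have hs0 := In_su0 z.2
  have hs1 := In_su1 hy1
  have hy0 : ∃ b, z.2 b ≠ 0 := by
    by_contra hcon
    have h0 : z.2 = 0 := by
      funext b
      by_contra hb
      exact hcon ⟨b, hb⟩
    rw [h0, norm_zero] at hy
    norm_num at hy
  have hu0 : uo d z.1 z.2 ≠ 0 := In_u0 z.1 z.2 hv hort hy0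
  have hg0 : ∀ b, 0 < ‖vR d z.1 b‖ ^ 2 + ‖vI d z.1 b‖ ^ 2 := fun b => by
    have h1 := norm_pos_iff.2 (hv b).1
    positivity
  have hdom : ∀ i, zz p z.1 i ∈ DomC (n2 p l e i) := fun i t =>
    (((hSg p (nj p l e i t) hp.two_le).2 (z.1 (Sum.inl ⟨i, t⟩))).2.2
      (hz.1 (Sum.inl ⟨i, t⟩)).1)
  have hval : ∀ i t b, ∃ r : ℝ, 0 ≤ r ∧ ∃ l' : ℕ, zz p z.1 i t b = r * om p ^ l' :=
    fun i t b => ((hSg p (nj p l e i t) hp.two_le).2 (z.1 (Sum.inl ⟨i, t⟩))).2.1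
      (hz.1 (Sum.inl ⟨i, t⟩)).2.2 b
  refine ⟨uo d z.1 z.2, hu0, fun i hi => ?_, fun i hi => ?_⟩
  · -- a family of prime power type
    have hcomb : (∑ b, (starRingEnd ℂ) (z.2 b) *
        phc (n2 p l e i) (zz p z.1 i) (0 : Fin (e i) → ZMod p) (FO a z.1 z.2 i b)).re =
        -wr (n2 p l e i) (zz p z.1 i) (fun h => inner ℝ (a i h) (uo d z.1 z.2) ^ 2) := by
      rw [← (hPr (e i) p (n2 p l e i) (zz p z.1 i) 0).2.1 (Fin l)
        (fun b => (starRingEnd ℂ) (z.2 b)) (fun b => FO a z.1 z.2 i b), phc_re, ← wr_neg]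
      exact congrArg _ (funext fun h => In_sum a z.1 z.2 i h hτ)
    have hnn : 0 ≤ wr (n2 p l e i) (zz p z.1 i)
        (fun h => inner ℝ (a i h) (uo d z.1 z.2) ^ 2) := wr_nn _ _ _ fun h => sq_nonneg _
    have hzero : wr (n2 p l e i) (zz p z.1 i)
        (fun h => inner ℝ (a i h) (uo d z.1 z.2) ^ 2) = 0 := by
      by_cases hi0 : (i : ℕ) = 0
      · have hi1 : i = 0 := Fin.ext hi0
        subst hi1
        refine In_mir z.2 _ (fun b => ‖vR d z.1 b‖ ^ 2 + ‖vI d z.1 b‖ ^ 2) _ hcomb hnn hs0 hs1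
          hg0 hy0 fun b => ?_
        have h1 := hg b
        unfold gL at h1
        rw [if_neg hi] at h1
        exact h1
      · have h1 : ∀ b, phc (n2 p l e i) (zz p z.1 i) (0 : Fin (e i) → ZMod p)
            (FO a z.1 z.2 i b) = 0 := fun b => by
          have h2 := hf (Sum.inr (Sum.inr (b, ⟨i, hi0⟩)))
          have h3 : fL p ρ (fun i h => |ν i h| + τ i) a
              (Sum.inr (Sum.inr (b, ⟨i, hi0⟩)) : Cf p l e) z.1 z.2 =
              fo p a (Sum.inr (Sum.inr (b, ⟨i, hi0⟩)) : Cf p l e) z.1 z.2 := if_neg hi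
          rw [h3] at h2
          exact h2
        rw [Finset.sum_eq_zero fun b _ => by rw [h1 b, mul_zero], Complex.zero_re] at hcomb
        linarith
    obtain ⟨P, hP1, hP2, hP3, -, hP5⟩ := hPs (e i) p hp hp2 (n2 p l e i) (zz p z.1 i) (hdom i)
      (hval i) (fun χ => hf (Sum.inl ⟨i, χ, none⟩))
    have hc : Fintype.card (Fin (e i) → ZMod p) = p ^ e i := by
      rw [Fintype.card_fun, ZMod.card, Fintype.card_fin]
    rw [← hc]
    refine In_card P hP1 hP2 hP3 _ fun g h hh => ?_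
    have h7 := hP5 (fun h => inner ℝ (a i h) (uo d z.1 z.2) ^ 2) (fun h => sq_nonneg _) (by
      rw [phc_real, hzero, Complex.ofReal_zero]) g h hh
    exact pow_eq_zero_iff (two_ne_zero) |>.1 h7
  · -- a family with two parts
    have hWnn : ∀ h, 0 ≤ |ν i h| + τ i := fun h => add_nonneg (abs_nonneg _) (hw i).nn
    have hcomb : (∑ b, (starRingEnd ℂ) (z.2 b) *
        Gw (fun i h => |ν i h| + τ i) a z.1 z.2 i b).re =
        -∑ h, (|ν i h| + τ i) * inner ℝ (a i (nb l h)) (uo d z.1 z.2) ^ 2 := by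
      have h1 : ∑ b, (starRingEnd ℂ) (z.2 b) * Gw (fun i h => |ν i h| + τ i) a z.1 z.2 i b =
          ∑ h, ((|ν i h| + τ i : ℝ) : ℂ) *
            ∑ b, (starRingEnd ℂ) (z.2 b) * FO a z.1 z.2 i b (nb l h) := by
        unfold Gw
        simp only [Finset.mul_sum]
        rw [Finset.sum_comm]
        refine Finset.sum_congr rfl fun h _ => Finset.sum_congr rfl fun b _ => ?_
        ring
      rw [h1, Complex.re_sum, ← Finset.sum_neg_distrib]
      refine Finset.sum_congr rfl fun h _ => ?_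
      rw [Complex.re_ofReal_mul, In_sum a z.1 z.2 i _ hτ]
      ring
    have hnn : 0 ≤ ∑ h, (|ν i h| + τ i) * inner ℝ (a i (nb l h)) (uo d z.1 z.2) ^ 2 :=
      Finset.sum_nonneg fun h _ => mul_nonneg (hWnn h) (sq_nonneg _)
    have hzero : ∑ h, (|ν i h| + τ i) * inner ℝ (a i (nb l h)) (uo d z.1 z.2) ^ 2 = 0 := by
      by_cases hi0 : (i : ℕ) = 0
      · have hi1 : i = 0 := Fin.ext hi0
        subst hi1
        refine In_mir z.2 _ (fun b => ‖vR d z.1 b‖ ^ 2 + ‖vI d z.1 b‖ ^ 2) _ hcomb hnn hs0 hs1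
          hg0 hy0 fun b => ?_
        have h1 := hg b
        unfold gL at h1
        rw [if_pos hi] at h1
        exact h1
      · have h1 : ∀ b, Gw (fun i h => |ν i h| + τ i) a z.1 z.2 i b = 0 := fun b => by
          have h2 := hf (Sum.inr (Sum.inr (b, ⟨i, hi0⟩)))
          have h3 : fL p ρ (fun i h => |ν i h| + τ i) a
              (Sum.inr (Sum.inr (b, ⟨i, hi0⟩)) : Cf p l e) z.1 z.2 =
              Gw (fun i h => |ν i h| + τ i) a z.1 z.2 i b := if_pos hi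
          rw [h3] at h2
          exact h2
        rw [Finset.sum_eq_zero fun b _ => by rw [h1 b, mul_zero], Complex.zero_re] at hcomb
        linarith
    have hall := (Finset.sum_eq_zero_iff_of_nonneg
      fun h _ => mul_nonneg (hWnn h) (sq_nonneg _)).1 hzero
    have hin : ∀ h, |ν i h| + τ i ≠ 0 → inner ℝ (a i (nb l h)) (uo d z.1 z.2) = (0 : ℝ) :=
      fun h hne => pow_eq_zero_iff (two_ne_zero) |>.1
        ((mul_eq_zero.1 (hall h (Finset.mem_univ h))).resolve_left hne)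
    by_cases hτ0 : τ i = 0
    · have h1 := (hw i).one
      simp only [hτ0, add_zero] at h1
      obtain ⟨h, h', hne, hh, hh'⟩ := two_of_sum (ν i) h1 (hw i).sum
      refine ⟨h, h', hne, hin h ?_, hin h' ?_⟩
      · rw [hτ0, add_zero]
        exact abs_ne_zero.2 hh
      · rw [hτ0, add_zero]
        exact abs_ne_zero.2 hh'
    · have h2 : ∀ h, |ν i h| + τ i ≠ 0 := fun h => by
        have h3 := lt_of_le_of_ne (hw i).nn (Ne.symm hτ0)
        have h4 := abs_nonneg (ν i h)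
        exact (by linarith : (0 : ℝ) < |ν i h| + τ i).ne'
      exact ⟨none, some none, by simp, hin _ (h2 _), hin _ (h2 _)⟩

end Pool.Agent.MPc05127.PR
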