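import Pool.Agent.Lib.MP_c05127_co.PR.In

/-!
# MP_c05127_co, project PR: zeros in the interior
-/

set_option autoImplicit false

open scoped Classical

namespace Pool.Agent.MPc05127.PR

open Pool.Agent.MPc05127.PP (E idx len)
open Pool.Agent.MPc05127.PO
open Pool.Agent.MPc05127.PO.FsAux

private theorem It_tu {l : ℕ} {y : Fin l → ℂ} (h : ‖y‖ < 1 / 2) : 0 < tu y := by
  unfold tu
  exact lt_max_of_lt_right (by linarith)

private theorem It_su {l : ℕ} {y : Fin l → ℂ} (h : ‖y‖ < 1 / 2) : su y = 0 := by
  unfold su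
  exact max_eq_left (by linarith)

/-- the coefficients of the real combination -/
private noncomputable def cf {l : ℕ} (c : Fin l × Bool → ℝ) (x : Fin l × Bool) : ℂ :=
  if x.2 then (⟨c (x.1, false) / 2, -(c (x.1, true) / 2)⟩ : ℂ)
  else (⟨c (x.1, false) / 2, c (x.1, true) / 2⟩ : ℂ)

private theorem It_sum {m l d : ℕ} {e : Fin m → ℕ} (a : Fin m → ℕ → E d)
    (X : Jo l e → ℕ → ℂ) (y : Fin l → ℂ) (i : Fin m) (c : Fin l × Bool → ℝ) (h : ℕ) :
    (((tu y - inner ℝ (a i h) (uo d X y)) * inner ℝ (a i h) (∑ x, c x • fr d X x) : ℝ) : ℂ) =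
      ∑ x : Fin l × Bool, cf c x * (if x.2 then FO a X y i x.1 h
        else (starRingEnd ℂ) (FO a X y i x.1 h)) := by
  rw [Fintype.sum_prod_type, inner_sum, Fintype.sum_prod_type, Finset.mul_sum, Complex.ofReal_sum]
  refine Finset.sum_congr rfl fun b _ => ?_
  rw [Fintype.sum_bool, Fintype.sum_bool, inner_add_right, inner_smul_right, inner_smul_right]
  have h1 : fr d X (b, true) = vI d X b := rfl
  have h2 : fr d X (b, false) = vR d X b := rfl
  rw [h1, h2]
  have h3 : cf c (b, true) = (⟨c (b, false) / 2, -(c (b, true) / 2)⟩ : ℂ) := rfl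
  have h4 : cf c (b, false) = (⟨c (b, false) / 2, c (b, true) / 2⟩ : ℂ) := rfl
  have h5 : (if ((b, true) : Fin l × Bool).2 = true then FO a X y i ((b, true) : Fin l × Bool).1 h
      else (starRingEnd ℂ) (FO a X y i ((b, true) : Fin l × Bool).1 h)) = FO a X y i b h := rfl
  have h6 : (if ((b, false) : Fin l × Bool).2 = true then
      FO a X y i ((b, false) : Fin l × Bool).1 h
      else (starRingEnd ℂ) (FO a X y i ((b, false) : Fin l × Bool).1 h)) =
      (starRingEnd ℂ) (FO a X y i b h) := rfl
  rw [h3, h4, h5, h6]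
  unfold FO
  apply Complex.ext
  · simp only [Complex.ofReal_re, Complex.add_re, Complex.mul_re, Complex.mul_im,
      Complex.ofReal_im, Complex.conj_re, Complex.conj_im]
    ring
  · simp only [Complex.ofReal_re, Complex.add_im, Complex.mul_re, Complex.mul_im,
      Complex.ofReal_im, Complex.conj_re, Complex.conj_im]
    ring

/-- A vanishing sum with positive weights has a nonnegative term. -/
private theorem It_pos {ι : Type} (S : Finset ι) (c t : ι → ℝ) (hS : S.Nonempty)
    (hc : ∀ h ∈ S, 0 < c h) (h0 : ∑ h ∈ S, c h * t h = 0) : ∃ h ∈ S, 0 ≤ t h := by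
  by_contra hcon
  push Not at hcon
  have h1 : ∑ h ∈ S, c h * t h < 0 :=
    Finset.sum_neg (fun h hh => mul_neg_of_pos_of_neg (hc h hh) (hcon h hh)) hS
  linarith

/-- Zeros in the interior. -/
theorem tItR (hSg : S_Sg) (hPr : S_Pr) (hPs : S_Ps) (hOr : S_Or) (p : ℕ) [NeZero p]
    (hp : p.Prime) (hp2 : p ≠ 2) (d l : ℕ) (hl : 1 ≤ l) (hld : 2 * l ≤ d)
    (e : Fin (d - 2 * l + 1) → ℕ) (ρ : Fin (d - 2 * l + 1) → Bool)
    (a : Fin (d - 2 * l + 1) → ℕ → E d)
    (hsp : ∀ i, ρ i = true → ∀ u : E d, u ≠ 0 → ∃ h : Ix l, inner ℝ (a i (nb l h)) u ≠ (0 : ℝ))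
    (z : (Jo l e → ℕ → ℂ) × (Fin l → ℂ))
    (hz : z ∈ (DomO (no p) : Set ((Jo l e → ℕ → ℂ) × (Fin l → ℂ))))
    (ν : Fin (d - 2 * l + 1) → Ix l → ℝ) (τ : Fin (d - 2 * l + 1) → ℝ)
    (hw : ∀ i, Wts a z.1 z.2 i (ν i) (τ i))
    (hf : ∀ x : Cf p l e, fL p ρ (fun i h => |ν i h| + τ i) a x z.1 z.2 = 0)
    (hg : ∀ b, gL p ρ (fun i h => |ν i h| + τ i) a b z.1 z.2 = 0) (hy : ‖z.2‖ < 1 / 2) :
    ∃ (v : Fin l × Bool → E d) (q : E d), LinearIndependent ℝ v ∧
      q ∈ Submodule.span ℝ (Set.range v) ∧
      (∀ i, ¬ ρ i = true → ∃ P : (Fin (e i) → ZMod p) → Finset ℕ,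
        (∀ g g', g ≠ g' → Disjoint (P g) (P g')) ∧
        (∀ g, ∀ h ∈ P g, h ≤ ∑ t, n2 p l e i t) ∧
        ∀ g, ∀ w ∈ Submodule.span ℝ (Set.range v), ∃ h ∈ P g,
          (inner ℝ (a i h) q - 1) * inner ℝ (a i h) w ≤ (0 : ℝ)) ∧
      ∀ i, ρ i = true → ∃ P : Bool → Finset (Ix l), Disjoint (P true) (P false) ∧
        ∀ g, ∀ w ∈ Submodule.span ℝ (Set.range v), ∃ h ∈ P g,
          (inner ℝ (a i (nb l h)) q - 1) * inner ℝ (a i (nb l h)) w ≤ (0 : ℝ) := by
  obtain ⟨hv, hort⟩ := hOr p hp hp2 d l hl hld e (az ρ a) z hz (fo_az ρ _ a z.1 z.2 hf)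
  have hτ := It_tu hy
  have hσ := It_su hy
  have hne : ∀ x : Fin l × Bool, fr d z.1 x ≠ 0 := by
    rintro ⟨b, s⟩
    cases s
    · exact (hv b).1
    · show vI d z.1 b ≠ 0
      rw [← norm_ne_zero_iff, (hv b).2, norm_ne_zero_iff]
      exact (hv b).1
  have hli : LinearIndependent ℝ (fr d z.1) :=
    linearIndependent_of_ne_zero_of_inner_eq_zero hne (fun x x' h => hort x x' h)
  have hdom : ∀ i, zz p z.1 i ∈ DomC (n2 p l e i) := fun i t =>
    (((hSg p (nj p l e i t) hp.two_le).2 (z.1 (Sum.inl ⟨i, t⟩))).2.2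
      (hz.1 (Sum.inl ⟨i, t⟩)).1)
  have hval : ∀ i t b, ∃ r : ℝ, 0 ≤ r ∧ ∃ l' : ℕ, zz p z.1 i t b = r * om p ^ l' :=
    fun i t b => ((hSg p (nj p l e i t) hp.two_le).2 (z.1 (Sum.inl ⟨i, t⟩))).2.1
      (hz.1 (Sum.inl ⟨i, t⟩)).2.2 b
  have hu : uo d z.1 z.2 ∈ Submodule.span ℝ (Set.range (fr d z.1)) := by
    unfold uo
    refine Submodule.sum_mem _ fun b _ => Submodule.add_mem _ ?_ ?_
    · exact Submodule.smul_mem _ _ (Submodule.subset_span ⟨(b, false), rfl⟩)
    · exact Submodule.smul_mem _ _ (Submodule.subset_span ⟨(b, true), rfl⟩)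
  -- from the scaled inequality to the statement
  have hfin : ∀ (A W : ℝ), 0 ≤ (tu z.2 - A) * W → ((tu z.2)⁻¹ * A - 1) * W ≤ 0 := by
    intro A W hpos
    have h1 : ((tu z.2)⁻¹ * A - 1) * W = -((tu z.2)⁻¹ * ((tu z.2 - A) * W)) := by
      field_simp
      ring
    have h2 : 0 ≤ (tu z.2)⁻¹ * ((tu z.2 - A) * W) := mul_nonneg (inv_nonneg.2 hτ.le) hpos
    linarith
  refine ⟨fr d z.1, (tu z.2)⁻¹ • uo d z.1 z.2, hli, Submodule.smul_mem _ _ hu, fun i hi => ?_,
    fun i hi => ?_⟩
  · have h0 : ∀ b, phc (n2 p l e i) (zz p z.1 i) (0 : Fin (e i) → ZMod p)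
        (FO a z.1 z.2 i b) = 0 := by
      intro b
      by_cases hi0 : (i : ℕ) = 0
      · have hi1 : i = 0 := Fin.ext hi0
        subst hi1
        have h := hg b
        unfold gL at h
        rw [if_neg hi] at h
        unfold go at h
        rw [hσ] at h
        simpa using h
      · have h2 := hf (Sum.inr (Sum.inr (b, ⟨i, hi0⟩)))
        have h3 : fL p ρ (fun i h => |ν i h| + τ i) a
            (Sum.inr (Sum.inr (b, ⟨i, hi0⟩)) : Cf p l e) z.1 z.2 =
            fo p a (Sum.inr (Sum.inr (b, ⟨i, hi0⟩)) : Cf p l e) z.1 z.2 := if_neg hi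
        rw [h3] at h2
        exact h2
    obtain ⟨P, hP1, hP2, -, hP4, -⟩ := hPs (e i) p hp hp2 (n2 p l e i) (zz p z.1 i) (hdom i)
      (hval i) (fun χ => hf (Sum.inl ⟨i, χ, none⟩))
    refine ⟨P, hP1, hP2, fun g w hw => ?_⟩
    obtain ⟨c, rfl⟩ := (Submodule.mem_span_range_iff_exists_fun ℝ).1 hw
    have hlin : ∀ χ : Fin (e i) → ZMod p, phc (n2 p l e i) (zz p z.1 i) χ
        (fun h => (((tu z.2 - inner ℝ (a i h) (uo d z.1 z.2)) *
          inner ℝ (a i h) (∑ x, c x • fr d z.1 x) : ℝ) : ℂ)) =
        ∑ x : Fin l × Bool, cf c x * phc (n2 p l e i) (zz p z.1 i) χ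
          (fun h => if x.2 then FO a z.1 z.2 i x.1 h
            else (starRingEnd ℂ) (FO a z.1 z.2 i x.1 h)) := by
      intro χ
      rw [← (hPr (e i) p (n2 p l e i) (zz p z.1 i) χ).2.1 (Fin l × Bool) (cf c)
        (fun x h => if x.2 then FO a z.1 z.2 i x.1 h
            else (starRingEnd ℂ) (FO a z.1 z.2 i x.1 h))]
      exact congrArg _ (funext fun h => It_sum a z.1 z.2 i c h)
    obtain ⟨h, hh, hpos⟩ := hP4 (fun h => (tu z.2 - inner ℝ (a i h) (uo d z.1 z.2)) *
          inner ℝ (a i h) (∑ x, c x • fr d z.1 x)) (by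
        intro χ
        rw [hlin χ.1]
        refine Finset.sum_eq_zero fun x _ => ?_
        have h1 : phc (n2 p l e i) (zz p z.1 i) χ.1
          (fun h => if x.2 then FO a z.1 z.2 i x.1 h
            else (starRingEnd ℂ) (FO a z.1 z.2 i x.1 h)) = 0 := hf (Sum.inl ⟨i, χ, some x⟩)
        rw [h1, mul_zero]) (by
        rw [hlin 0]
        refine Finset.sum_eq_zero fun x _ => ?_
        obtain ⟨b, s⟩ := x
        cases s
        · have h1 : phc (n2 p l e i) (zz p z.1 i) (0 : Fin (e i) → ZMod p)
            (fun h => (starRingEnd ℂ) (FO a z.1 z.2 i b h)) = 0 := by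
            rw [(hPr (e i) p (n2 p l e i) (zz p z.1 i) 0).2.2, h0 b, map_zero]
          have h2 : (fun h => if ((b, false) : Fin l × Bool).2 = true then
              FO a z.1 z.2 i ((b, false) : Fin l × Bool).1 h
              else (starRingEnd ℂ) (FO a z.1 z.2 i ((b, false) : Fin l × Bool).1 h)) =
              fun h => (starRingEnd ℂ) (FO a z.1 z.2 i b h) := rfl
          rw [h2, h1, mul_zero]
        · have h2 : (fun h => if ((b, true) : Fin l × Bool).2 = true then
              FO a z.1 z.2 i ((b, true) : Fin l × Bool).1 h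
              else (starRingEnd ℂ) (FO a z.1 z.2 i ((b, true) : Fin l × Bool).1 h)) =
              FO a z.1 z.2 i b := rfl
          rw [h2, h0 b, mul_zero]) g
    refine ⟨h, hh, ?_⟩
    rw [inner_smul_right]
    exact hfin _ _ hpos
  · -- a family with two parts
    have hWnn : ∀ h, 0 ≤ |ν i h| + τ i := fun h => add_nonneg (abs_nonneg _) (hw i).nn
    have h0 : ∀ b, Gw (fun i h => |ν i h| + τ i) a z.1 z.2 i b = 0 := by
      intro b
      by_cases hi0 : (i : ℕ) = 0
      · have hi1 : i = 0 := Fin.ext hi0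
        subst hi1
        have h := hg b
        unfold gL at h
        rw [if_pos hi, hσ] at h
        simpa using h
      · have h2 := hf (Sum.inr (Sum.inr (b, ⟨i, hi0⟩)))
        have h3 : fL p ρ (fun i h => |ν i h| + τ i) a
            (Sum.inr (Sum.inr (b, ⟨i, hi0⟩)) : Cf p l e) z.1 z.2 =
            Gw (fun i h => |ν i h| + τ i) a z.1 z.2 i b := if_pos hi
        rw [h3] at h2
        exact h2
    set T : Ix l → E d → ℝ := fun h w => (tu z.2 - inner ℝ (a i (nb l h)) (uo d z.1 z.2)) *
      inner ℝ (a i (nb l h)) w with hT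
    have hWfr : ∀ x : Fin l × Bool, ∑ h, (|ν i h| + τ i) * T h (fr d z.1 x) = 0 := by
      rintro ⟨b, s⟩
      have h1 := h0 b
      cases s
      · have h2 := congrArg Complex.re h1
        unfold Gw at h2
        rw [Complex.re_sum, Complex.zero_re] at h2
        rw [← h2]
        refine Finset.sum_congr rfl fun h _ => ?_
        rw [Complex.re_ofReal_mul]
        unfold FO
        rw [Complex.re_ofReal_mul]
        rfl
      · have h2 := congrArg Complex.im h1
        unfold Gw at h2
        rw [Complex.im_sum, Complex.zero_im] at h2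
        rw [← h2]
        refine Finset.sum_congr rfl fun h _ => ?_
        rw [Complex.im_ofReal_mul]
        unfold FO
        rw [Complex.im_ofReal_mul]
        rfl
    have hext : ∀ W : Ix l → ℝ, (∀ x, ∑ h, W h * T h (fr d z.1 x) = 0) →
        ∀ w ∈ Submodule.span ℝ (Set.range (fr d z.1)), ∑ h, W h * T h w = 0 := by
      intro W hW w hw
      obtain ⟨c, rfl⟩ := (Submodule.mem_span_range_iff_exists_fun ℝ).1 hw
      have h1 : ∀ h, W h * T h (∑ x, c x • fr d z.1 x) =
          ∑ x, c x * (W h * T h (fr d z.1 x)) := by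
        intro h
        simp only [hT]
        rw [inner_sum, Finset.mul_sum, Finset.mul_sum]
        refine Finset.sum_congr rfl fun x _ => ?_
        rw [inner_smul_right]
        ring
      rw [Finset.sum_congr rfl fun h _ => h1 h, Finset.sum_comm]
      refine Finset.sum_eq_zero fun x _ => ?_
      rw [← Finset.mul_sum, hW x, mul_zero]
    have hWall := hext _ hWfr
    have hνall := hext (ν i) (hw i).dep
    by_cases hτ0 : τ i = 0
    · -- the parts are the signs of `ν`
      have hone := (hw i).one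
      simp only [hτ0, add_zero] at hone hWall
      have hsum := (hw i).sum
      have hp1 : ∑ h, (|ν i h| + ν i h) = 1 := by
        rw [Finset.sum_add_distrib, hone, hsum, add_zero]
      have hm1 : ∑ h, (|ν i h| - ν i h) = 1 := by
        rw [Finset.sum_sub_distrib, hone, hsum, sub_zero]
      refine ⟨fun g => if g then Finset.univ.filter (fun h => 0 < ν i h)
        else Finset.univ.filter (fun h => ν i h < 0), ?_, fun g w hw' => ?_⟩
      · rw [Finset.disjoint_left]
        intro h hh hh'
        have h1 := (Finset.mem_filter.1 hh).2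
        have h2 := (Finset.mem_filter.1 hh').2
        exact lt_asymm h1 h2
      · have hA := hWall w hw'
        have hB := hνall w hw'
        cases g
        · show ∃ h ∈ Finset.univ.filter (fun h => ν i h < 0), _
          have h1 : ∑ h, (|ν i h| - ν i h) * T h w = 0 := by
            have h2 : ∀ h, (|ν i h| - ν i h) * T h w = |ν i h| * T h w - ν i h * T h w :=
              fun h => by ring
            rw [Finset.sum_congr rfl fun h _ => h2 h, Finset.sum_sub_distrib, hA, hB, sub_zero]
          have hz1 : ∀ h, ¬ ν i h < 0 → |ν i h| - ν i h = 0 := fun h hh => by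
            rw [abs_of_nonneg (not_lt.1 hh), sub_self]
          have h3 : ∑ h ∈ Finset.univ.filter (fun h => ν i h < 0), (|ν i h| - ν i h) * T h w = 0 := by
            refine (Finset.sum_subset (Finset.filter_subset _ _) fun h _ hh => ?_).trans h1
            rw [hz1 h (fun h5 => hh (Finset.mem_filter.2 ⟨Finset.mem_univ _, h5⟩)), zero_mul]
          have h4 : (Finset.univ.filter (fun h => ν i h < 0)).Nonempty := by
            by_contra hcon
            rw [Finset.not_nonempty_iff_eq_empty] at hcon
            have h5 : ∀ h, ¬ ν i h < 0 := fun h h6 => by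
              have : h ∈ Finset.univ.filter (fun h => ν i h < 0) :=
                Finset.mem_filter.2 ⟨Finset.mem_univ _, h6⟩
              rw [hcon] at this
              exact Finset.notMem_empty _ this
            rw [Finset.sum_eq_zero fun h _ => hz1 h (h5 h)] at hm1
            exact zero_ne_one hm1
          obtain ⟨h, hh, hpos⟩ := It_pos _ (fun h => |ν i h| - ν i h) (fun h => T h w) h4
            (fun h hh => by
              have h5 := (Finset.mem_filter.1 hh).2
              have h6 := abs_nonneg (ν i h)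
              show 0 < |ν i h| - ν i h
              linarith) h3
          refine ⟨h, hh, ?_⟩
          rw [inner_smul_right]
          exact hfin _ _ hpos
        · show ∃ h ∈ Finset.univ.filter (fun h => 0 < ν i h), _
          have h1 : ∑ h, (|ν i h| + ν i h) * T h w = 0 := by
            have h2 : ∀ h, (|ν i h| + ν i h) * T h w = |ν i h| * T h w + ν i h * T h w :=
              fun h => by ring
            rw [Finset.sum_congr rfl fun h _ => h2 h, Finset.sum_add_distrib, hA, hB, add_zero]
          have hz1 : ∀ h, ¬ 0 < ν i h → |ν i h| + ν i h = 0 := fun h hh => by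
            rw [abs_of_nonpos (not_lt.1 hh)]
            ring
          have h3 : ∑ h ∈ Finset.univ.filter (fun h => 0 < ν i h), (|ν i h| + ν i h) * T h w = 0 := by
            refine (Finset.sum_subset (Finset.filter_subset _ _) fun h _ hh => ?_).trans h1
            rw [hz1 h (fun h5 => hh (Finset.mem_filter.2 ⟨Finset.mem_univ _, h5⟩)), zero_mul]
          have h4 : (Finset.univ.filter (fun h => 0 < ν i h)).Nonempty := by
            by_contra hcon
            rw [Finset.not_nonempty_iff_eq_empty] at hcon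
            have h5 : ∀ h, ¬ 0 < ν i h := fun h h6 => by
              have : h ∈ Finset.univ.filter (fun h => 0 < ν i h) :=
                Finset.mem_filter.2 ⟨Finset.mem_univ _, h6⟩
              rw [hcon] at this
              exact Finset.notMem_empty _ this
            rw [Finset.sum_eq_zero fun h _ => hz1 h (h5 h)] at hp1
            exact zero_ne_one hp1
          obtain ⟨h, hh, hpos⟩ := It_pos _ (fun h => |ν i h| + ν i h) (fun h => T h w) h4
            (fun h hh => by
              have h5 := (Finset.mem_filter.1 hh).2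
              have h6 := abs_nonneg (ν i h)
              show 0 < |ν i h| + ν i h
              linarith) h3
          refine ⟨h, hh, ?_⟩
          rw [inner_smul_right]
          exact hfin _ _ hpos
    · -- the vectors lie in a hyperplane
      have hτpos : 0 < τ i := lt_of_le_of_ne (hw i).nn (Ne.symm hτ0)
      have hWpos : ∀ h, 0 < |ν i h| + τ i := fun h => by
        have h1 := abs_nonneg (ν i h)
        linarith
      obtain ⟨s, w0, hsw, hs⟩ := rank0 a z.1 z.2 i ((hw i).rk hτ0)
      set w1 : E d := ∑ x, w0 x • fr d z.1 x with hw1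
      have hw1m : w1 ∈ Submodule.span ℝ (Set.range (fr d z.1)) :=
        (Submodule.mem_span_range_iff_exists_fun ℝ).2 ⟨w0, rfl⟩
      have hs' : ∀ h, s + T h w1 = 0 := hs
      have hs0 : s = 0 := by
        have h1 : ∑ h, (|ν i h| + τ i) * (s + T h w1) = 0 :=
          Finset.sum_eq_zero fun h _ => by rw [hs' h, mul_zero]
        have h2 : ∀ h, (|ν i h| + τ i) * (s + T h w1) =
            (|ν i h| + τ i) * s + (|ν i h| + τ i) * T h w1 := fun h => by ring
        rw [Finset.sum_congr rfl fun h _ => h2 h, Finset.sum_add_distrib, ← Finset.sum_mul,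
          (hw i).one, hWall w1 hw1m, one_mul, add_zero] at h1
        exact h1
      have hw0 : w0 ≠ 0 := hsw.resolve_left (fun h => h hs0)
      have hw10 : w1 ≠ 0 := by
        intro h
        exact hw0 (funext (Fintype.linearIndependent_iff.1 hli w0 h))
      obtain ⟨k, hk⟩ := hsp i hi w1 hw10
      have hk0 : tu z.2 - inner ℝ (a i (nb l k)) (uo d z.1 z.2) = 0 := by
        have h1 := hs' k
        rw [hs0, zero_add] at h1
        exact (mul_eq_zero.1 h1).resolve_right hk
      have hTk : ∀ w, T k w = 0 := fun w => by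
        simp only [hT]
        rw [hk0, zero_mul]
      refine ⟨fun g => if g then {k} else Finset.univ.erase k, ?_, fun g w hw' => ?_⟩
      · show Disjoint ({k} : Finset (Ix l)) (Finset.univ.erase k)
        rw [Finset.disjoint_singleton_left]
        exact Finset.notMem_erase _ _
      · cases g
        · show ∃ h ∈ Finset.univ.erase k, _
          have h1 : ∑ h ∈ Finset.univ.erase k, (|ν i h| + τ i) * T h w = 0 := by
            have h2 := hWall w hw'
            rw [← Finset.add_sum_erase _ _ (Finset.mem_univ k), hTk w, mul_zero, zero_add] at h2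
            exact h2
          have h4 : (Finset.univ.erase k).Nonempty := by
            rw [← Finset.card_pos, Finset.card_erase_of_mem (Finset.mem_univ k), Finset.card_univ,
              cardIx]
            omega
          obtain ⟨h, hh, hpos⟩ := It_pos _ (fun h => |ν i h| + τ i) (fun h => T h w) h4
            (fun h _ => hWpos h) h1
          refine ⟨h, hh, ?_⟩
          rw [inner_smul_right]
          exact hfin _ _ hpos
        · show ∃ h ∈ ({k} : Finset (Ix l)), _
          refine ⟨k, Finset.mem_singleton_self _, ?_⟩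
          rw [inner_smul_right]
          exact hfin _ _ (hTk w).ge

end Pool.Agent.MPc05127.PR
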