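import Pool.Agent.Lib.MP_c05127_co.PR.Defs
import Pool.Agent.Lib.MP_c05127_co.PO.SpecG

/-!
# MP_c05127_co, project PR: the coefficients of the dependency
-/

set_option autoImplicit false

open scoped Classical

namespace Pool.Agent.MPc05127.PR

open Pool.Agent.MPc05127.PP (E)
open Pool.Agent.MPc05127.PO

section

variable {m l d : ℕ} {e : Fin m → ℕ}

/-- Expansion in the free column. -/
theorem det_col (a : Fin m → ℕ → E d) (X : Jo l e → ℕ → ℂ) (y : Fin l → ℂ) (i : Fin m)
    (r : Ix l → ℝ) :
    ((Am a X y i).updateCol none r).det = ∑ h, r h * mu a X y i h := by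
  have h1 := LinearMap.pi_apply_eq_sum_univ
    ((LinearMap.proj none).comp (Matrix.cramer (Am a X y i)) : (Ix l → ℝ) →ₗ[ℝ] ℝ) r
  have h2 : ((LinearMap.proj none).comp (Matrix.cramer (Am a X y i)) :
      (Ix l → ℝ) →ₗ[ℝ] ℝ) r = ((Am a X y i).updateCol none r).det := by
    rw [LinearMap.comp_apply, LinearMap.proj_apply, Matrix.cramer_apply]
  rw [← h2, h1]
  refine Finset.sum_congr rfl fun h _ => ?_
  rw [LinearMap.comp_apply, LinearMap.proj_apply, Matrix.cramer_apply, smul_eq_mul]
  unfold mu
  congr 3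
  funext j
  rw [Pi.single_apply]
  by_cases hj : h = j
  · rw [if_pos hj, if_pos hj.symm]
  · rw [if_neg hj, if_neg (Ne.symm hj)]

theorem ker_col (a : Fin m → ℕ → E d) (X : Jo l e → ℕ → ℂ) (y : Fin l → ℂ) (i : Fin m)
    (c : Option (Fin l × Bool)) :
    ∑ h, Am a X y i h (some c) * mu a X y i h = 0 := by
  rw [← det_col]
  refine Matrix.det_zero_of_column_eq (i := none) (j := some c) (by simp) fun k => ?_
  rw [Matrix.updateCol_self, Matrix.updateCol_ne (by simp)]

/-- The sum of the coefficients is zero. -/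
theorem mu_sum (a : Fin m → ℕ → E d) (X : Jo l e → ℕ → ℂ) (y : Fin l → ℂ) (i : Fin m) :
    ∑ h, mu a X y i h = 0 := by
  have h1 := ker_col a X y i none
  have h2 : ∀ h, Am a X y i h (some none) = 1 := fun h => rfl
  simpa [h2] using h1

theorem Am_fr (a : Fin m → ℕ → E d) (X : Jo l e → ℕ → ℂ) (y : Fin l → ℂ) (i : Fin m) (h : Ix l)
    (x : Fin l × Bool) :
    Am a X y i h (some (some x)) =
      (tu y - inner ℝ (a i (nb l h)) (uo d X y)) * inner ℝ (a i (nb l h)) (fr d X x) := by
  obtain ⟨b, s⟩ := x
  cases s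
  · show (FO a X y i b (nb l h)).re = _
    unfold FO
    rw [Complex.re_ofReal_mul]
    rfl
  · show (FO a X y i b (nb l h)).im = _
    unfold FO
    rw [Complex.im_ofReal_mul]
    rfl

/-- The dependency of the vectors. -/
theorem mu_fr (a : Fin m → ℕ → E d) (X : Jo l e → ℕ → ℂ) (y : Fin l → ℂ) (i : Fin m)
    (x : Fin l × Bool) :
    ∑ h, mu a X y i h * ((tu y - inner ℝ (a i (nb l h)) (uo d X y)) *
      inner ℝ (a i (nb l h)) (fr d X x)) = 0 := by
  have h1 := ker_col a X y i (some x)
  rw [← h1]
  exact Finset.sum_congr rfl fun h _ => by rw [Am_fr, mul_comm]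

/-- If all coefficients vanish, the vectors `(1, F_h)` lie in a hyperplane. -/
theorem rank0 (a : Fin m → ℕ → E d) (X : Jo l e → ℕ → ℂ) (y : Fin l → ℂ) (i : Fin m)
    (h0 : ∀ h, mu a X y i h = 0) :
    ∃ (s : ℝ) (w : Fin l × Bool → ℝ), (s ≠ 0 ∨ w ≠ 0) ∧
      ∀ h, s + (tu y - inner ℝ (a i (nb l h)) (uo d X y)) *
        inner ℝ (a i (nb l h)) (∑ x, w x • fr d X x) = 0 := by
  have hcol : ∀ h, Am a X y i h none = 0 := fun h => rfl
  -- the equation for a kernel vector without a component in the free column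
  have hred : ∀ v : Ix l → ℝ, v none = 0 → v ≠ 0 → (Am a X y i).mulVec v = 0 →
      ∃ (s : ℝ) (w : Fin l × Bool → ℝ), (s ≠ 0 ∨ w ≠ 0) ∧
      ∀ h, s + (tu y - inner ℝ (a i (nb l h)) (uo d X y)) *
        inner ℝ (a i (nb l h)) (∑ x, w x • fr d X x) = 0 := by
    intro v hv0 hv hz
    refine ⟨v (some none), fun x => v (some (some x)), ?_, fun h => ?_⟩
    · by_contra hcon
      push Not at hcon
      apply hv
      funext c
      rcases c with _ | (_ | x)
      · exact hv0
      · exact hcon.1
      · exact congrFun hcon.2 x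
    · have h1 := congrFun hz h
      rw [Matrix.mulVec, dotProduct, Fintype.sum_option, Fintype.sum_option, hcol h, zero_mul,
        zero_add, Pi.zero_apply] at h1
      have h2 : Am a X y i h (some none) = 1 := rfl
      rw [h2, one_mul] at h1
      rw [← h1, inner_sum, Finset.mul_sum]
      congr 1
      refine Finset.sum_congr rfl fun x _ => ?_
      rw [Am_fr, inner_smul_right]
      ring
  by_contra hcon
  have hsurj : Function.Surjective (Am a X y i).mulVecLin := by
    intro r
    have hdet : ((Am a X y i).updateCol none r).det = 0 := by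
      rw [det_col]
      exact Finset.sum_eq_zero fun h _ => by rw [h0 h, mul_zero]
    obtain ⟨v, hv, hz⟩ := Matrix.exists_mulVec_eq_zero_iff.2 hdet
    have hz1 : ∀ h, r h * v none + (Am a X y i).mulVec v h = 0 := by
      intro h
      have h1 := congrFun hz h
      rw [Matrix.mulVec, dotProduct, Fintype.sum_option, Pi.zero_apply] at h1
      rw [Matrix.mulVec, dotProduct, Fintype.sum_option, hcol h, zero_mul, zero_add, ← h1,
        Matrix.updateCol_self]
      congr 1
    have hn : v none ≠ 0 := by
      intro hv0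
      apply hcon
      refine hred v hv0 hv ?_
      funext h
      have h1 := hz1 h
      rw [hv0, mul_zero, zero_add] at h1
      exact h1
    refine ⟨(-(v none)⁻¹) • v, ?_⟩
    rw [Matrix.mulVecLin_apply, Matrix.mulVec_smul]
    funext h
    rw [Pi.smul_apply, smul_eq_mul]
    have h1 := hz1 h
    field_simp
    linarith
  have hinj := LinearMap.injective_iff_surjective.2 hsurj
  have h1 : (Am a X y i).mulVecLin (Pi.single none 1) = (Am a X y i).mulVecLin 0 := by
    rw [map_zero, Matrix.mulVecLin_apply]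
    funext h
    rw [Matrix.mulVec_single_one]
    exact hcol h
  have h2 := congrFun (hinj h1) none
  simp at h2

end

end Pool.Agent.MPc05127.PR
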