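import Pool.Agent.Lib.MP_c05127_co.PO.SpecT

/-!
# MP_c05127_co, project PR: the common zero in a compact domain
-/

set_option autoImplicit false

open scoped Classical

namespace Pool.Agent.MPc05127.PR

open Pool.Agent.MPc05127.PO

section

variable {J K : Type}

/-- The sum of the absolute values of the coordinates. -/
noncomputable def sX (n : J → ℕ) (X : J → ℕ → ℂ) (j : J) : ℝ :=
  ∑ i ∈ Finset.range (n j + 1), ‖X j i‖

/-- The normalization. -/
noncomputable def nX (n : J → ℕ) (X : J → ℕ → ℂ) : J → ℕ → ℂ := fun j i => X j i / (sX n X j : ℂ)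

/-- The compact domain. -/
def DomK (n : J → ℕ) : Set ((J → ℕ → ℂ) × (K → ℂ)) :=
  {z | z ∈ (DomO n : Set ((J → ℕ → ℂ) × (K → ℂ))) ∧ ∀ j, sX n z.1 j = 1}

theorem sX_pos (n : J → ℕ) (z : (J → ℕ → ℂ) × (K → ℂ))
    (hz : z ∈ (DomO n : Set ((J → ℕ → ℂ) × (K → ℂ)))) (j : J) : 0 < sX n z.1 j := by
  obtain ⟨⟨i, hi, hne⟩, -, -⟩ := hz.1 j
  exact Finset.sum_pos' (fun _ _ => norm_nonneg _)
    ⟨i, Finset.mem_range.2 (Nat.lt_succ_of_le hi), norm_pos_iff.2 hne⟩

theorem nX_mem (n : J → ℕ) (z : (J → ℕ → ℂ) × (K → ℂ))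
    (hz : z ∈ (DomO n : Set ((J → ℕ → ℂ) × (K → ℂ)))) :
    (nX n z.1, z.2) ∈ (DomK n : Set ((J → ℕ → ℂ) × (K → ℂ))) := by
  refine ⟨⟨fun j => ⟨?_, fun i hi => ?_, ?_⟩, hz.2⟩, fun j => ?_⟩
  · obtain ⟨⟨i, hi, hne⟩, -, -⟩ := hz.1 j
    refine ⟨i, hi, ?_⟩
    unfold nX
    exact div_ne_zero hne (Complex.ofReal_ne_zero.2 (sX_pos n z hz j).ne')
  · obtain ⟨-, h, -⟩ := hz.1 j
    show z.1 j i / _ = 0
    rw [h i hi, zero_div]
  · obtain ⟨-, -, r, hr, h⟩ := hz.1 j
    refine ⟨r / sX n z.1 j, div_nonneg hr (sX_pos n z hz j).le, ?_⟩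
    show z.1 j (n j) / _ = _
    rw [h, Complex.ofReal_div]
  · have hp := sX_pos n z hz j
    unfold sX nX
    have h1 : ∀ i ∈ Finset.range (n j + 1), ‖z.1 j i / (sX n z.1 j : ℂ)‖ =
        ‖z.1 j i‖ / sX n z.1 j := by
      intro i _
      rw [norm_div, Complex.norm_real, Real.norm_eq_abs, abs_of_pos hp]
    rw [Finset.sum_congr rfl h1, ← Finset.sum_div]
    exact div_self hp.ne'

theorem om_norm (p : ℕ) : ‖om p‖ = 1 := by
  unfold om
  have h : (2 * Real.pi * Complex.I / p : ℂ) = ((2 * Real.pi / p : ℝ) : ℂ) * Complex.I := by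
    push_cast
    ring
  rw [h, Complex.norm_exp_ofReal_mul_I]

theorem nX_rX (n : J → ℕ) (p : ℕ) (j : J) (X : J → ℕ → ℂ) : nX n (rX p j X) = rX p j (nX n X) := by
  have h1 : ∀ j', sX n (rX p j X) j' = sX n X j' := by
    intro j'
    unfold sX rX
    by_cases h : j' = j
    · subst h
      rw [Function.update_self]
      refine Finset.sum_congr rfl fun i _ => ?_
      rw [norm_mul, om_norm, one_mul]
    · rw [Function.update_of_ne h]
  funext j' i
  unfold nX
  rw [h1]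
  unfold rX
  by_cases h : j' = j
  · subst h
    rw [Function.update_self, Function.update_self]
    ring
  · rw [Function.update_of_ne h, Function.update_of_ne h]

theorem nX_cont (n : J → ℕ) :
    ContinuousOn (fun z : (J → ℕ → ℂ) × (K → ℂ) => (nX n z.1, z.2)) (DomO n) := by
  have hX : ∀ (j : J) (i : ℕ), Continuous (fun z : (J → ℕ → ℂ) × (K → ℂ) => z.1 j i) := fun j i =>
    (continuous_apply i).comp ((continuous_apply j).comp continuous_fst)
  refine ContinuousOn.prodMk ?_ continuous_snd.continuousOn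
  refine continuousOn_pi.2 fun j => continuousOn_pi.2 fun i => ?_
  unfold nX
  refine ContinuousOn.div (hX j i).continuousOn ?_ fun z hz =>
    Complex.ofReal_ne_zero.2 (sX_pos n z hz j).ne'
  unfold sX
  exact (Complex.continuous_ofReal.comp (continuous_finsetSum _ fun i' _ =>
    (hX j i').norm)).continuousOn

/-- The compact domain is compact. -/
theorem DomK_compact (n : J → ℕ) : IsCompact (DomK n : Set ((J → ℕ → ℂ) × (K → ℂ))) := by
  have hX : ∀ (j : J) (i : ℕ), Continuous (fun z : (J → ℕ → ℂ) × (K → ℂ) => z.1 j i) := fun j i =>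
    (continuous_apply i).comp ((continuous_apply j).comp continuous_fst)
  have hY : ∀ a : K, Continuous (fun z : (J → ℕ → ℂ) × (K → ℂ) => z.2 a) := fun a =>
    (continuous_apply a).comp continuous_snd
  have hbig : IsCompact ((Set.univ.pi fun _ : J => Set.univ.pi fun _ : ℕ =>
      Metric.closedBall (0 : ℂ) 1) ×ˢ (Set.univ.pi fun _ : K => Metric.closedBall (0 : ℂ) 1)) :=
    (isCompact_univ_pi fun _ => isCompact_univ_pi fun _ => isCompact_closedBall _ _).prod
      (isCompact_univ_pi fun _ => isCompact_closedBall _ _)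
  refine hbig.of_isClosed_subset ?_ ?_
  · have heq : (DomK n : Set ((J → ℕ → ℂ) × (K → ℂ))) =
        (⋂ j : J, ({z | ∀ i, n j < i → z.1 j i = 0} ∩ {z | (z.1 j (n j)).im = 0} ∩
          {z | 0 ≤ (z.1 j (n j)).re} ∩ {z | sX n z.1 j = 1})) ∩ (⋂ a : K, {z | ‖z.2 a‖ ≤ 1}) := by
      ext z
      simp only [Set.mem_inter_iff, Set.mem_iInter, Set.mem_ofPred_eq]
      constructor
      · rintro ⟨⟨h1, h2⟩, h3⟩
        refine ⟨fun j => ⟨⟨⟨(h1 j).2.1, ?_⟩, ?_⟩, h3 j⟩, h2⟩
        · obtain ⟨r, -, hr⟩ := (h1 j).2.2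
          rw [hr, Complex.ofReal_im]
        · obtain ⟨r, hr0, hr⟩ := (h1 j).2.2
          rw [hr, Complex.ofReal_re]
          exact hr0
      · rintro ⟨h1, h2⟩
        refine ⟨⟨fun j => ⟨?_, (h1 j).1.1.1, ?_⟩, h2⟩, fun j => (h1 j).2⟩
        · by_contra hcon
          push Not at hcon
          have h3 := (h1 j).2
          unfold sX at h3
          rw [Finset.sum_eq_zero fun i hi => by
            rw [hcon i (Nat.lt_succ_iff.1 (Finset.mem_range.1 hi)), norm_zero]] at h3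
          exact zero_ne_one h3
        · exact ⟨_, (h1 j).1.2, Complex.ext (Complex.ofReal_re _).symm
            ((h1 j).1.1.2.trans (Complex.ofReal_im _).symm)⟩
    rw [heq]
    refine IsClosed.inter (isClosed_iInter fun j => ?_) (isClosed_iInter fun a => ?_)
    · refine IsClosed.inter (IsClosed.inter (IsClosed.inter ?_ ?_) ?_) ?_
      · have h4 : {z : (J → ℕ → ℂ) × (K → ℂ) | ∀ i, n j < i → z.1 j i = 0} =
            ⋂ i : {i // n j < i}, {z | z.1 j i = 0} := by
          ext z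
          simp only [Set.mem_iInter, Set.mem_ofPred_eq, Subtype.forall]
        rw [h4]
        exact isClosed_iInter fun i => isClosed_eq (hX j i) continuous_const
      · exact isClosed_eq (Complex.continuous_im.comp (hX j (n j))) continuous_const
      · exact isClosed_le continuous_const (Complex.continuous_re.comp (hX j (n j)))
      · unfold sX
        exact isClosed_eq (continuous_finsetSum _ fun i _ => (hX j i).norm) continuous_const
    · exact isClosed_le (hY a).norm continuous_const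
  · intro z hz
    refine ⟨fun j _ i _ => ?_, fun a _ => ?_⟩
    · rw [Metric.mem_closedBall, dist_zero_right]
      by_cases hi : n j < i
      · rw [(hz.1.1 j).2.1 i hi, norm_zero]
        exact zero_le_one
      · rw [← hz.2 j]
        exact Finset.single_le_sum (f := fun i => ‖z.1 j i‖) (fun _ _ => norm_nonneg _)
          (Finset.mem_range.2 (Nat.lt_succ_of_le (not_lt.1 hi)))
    · rw [Metric.mem_closedBall, dist_zero_right]
      exact hz.1.2 a

end

/-- The common zero in the compact domain. -/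
theorem PoK (hPo : S_Po) (C K J : Type) [Fintype C] [Fintype K] [Fintype J] (p : ℕ) (B : C → J)
    (χ : C → J → ℤ) (χ' : K → J → ℤ) (rank : J → ℕ) (n : J → ℕ)
    (F : C → (J → ℕ → ℂ) → (K → ℂ) → ℂ) (G : K → (J → ℕ → ℂ) → (K → ℂ) → ℂ) (hp : p.Prime)
    (h1 : ∀ c, ¬ (p : ℤ) ∣ χ c (B c)) (h2 : ∀ c j, χ c j ≠ 0 → j = B c ∨ rank (B c) < rank j)
    (h3 : ∀ j, Fintype.card {c // B c = j} = n j)
    (h4 : ∀ c, ContinuousOn (fun z : (J → ℕ → ℂ) × (K → ℂ) => F c z.1 z.2) (DomO n))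
    (h5 : ∀ a, ContinuousOn (fun z : (J → ℕ → ℂ) × (K → ℂ) => G a z.1 z.2) (DomO n))
    (h6 : ∀ (j : J), ∀ z ∈ (DomO n : Set ((J → ℕ → ℂ) × (K → ℂ))), z.1 j (n j) = 0 →
      (∀ c, F c (rX p j z.1) (rY p χ' j z.2) = om p ^ χ c j * F c z.1 z.2) ∧
      ∀ a, G a (rX p j z.1) (rY p χ' j z.2) = om p ^ χ' a j * G a z.1 z.2)
    (h7 : ∀ (a : K), ∀ z ∈ (DomO n : Set ((J → ℕ → ℂ) × (K → ℂ))), ‖z.2 a‖ = 1 →
      ∃ r : ℝ, 0 < r ∧ G a z.1 z.2 = r * z.2 a) :
    ∃ z ∈ (DomK n : Set ((J → ℕ → ℂ) × (K → ℂ))), (∀ c, F c z.1 z.2 = 0) ∧ ∀ a, G a z.1 z.2 = 0 := by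
  have hm : Set.MapsTo (fun z : (J → ℕ → ℂ) × (K → ℂ) => (nX n z.1, z.2)) (DomO n) (DomO n) :=
    fun z hz => (nX_mem n z hz).1
  obtain ⟨z, hz, hF, hG⟩ := hPo C K J p B χ χ' rank n (fun c X y => F c (nX n X) y)
    (fun a X y => G a (nX n X) y) hp h1 h2 h3
    (fun c => (h4 c).comp (nX_cont n) hm) (fun a => (h5 a).comp (nX_cont n) hm)
    (fun j z hz h0 => by
      have h8 := h6 j (nX n z.1, z.2) (hm hz) (by
        show z.1 j (n j) / _ = 0
        rw [h0, zero_div])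
      rw [nX_rX]
      exact h8)
    (fun a z hz h0 => h7 a (nX n z.1, z.2) (hm hz) h0)
  exact ⟨(nX n z.1, z.2), nX_mem n z hz, hF, hG⟩

end Pool.Agent.MPc05127.PR
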