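import Pool.Agent.Lib.MP_c05127_co.PR.Fc
import Pool.Agent.Lib.MP_c05127_co.PR.Fs
import Pool.Agent.Lib.MP_c05127_co.PR.PoK

/-!
# MP_c05127_co, project PR: the common zero, and the limit `c → 0`
-/

set_option autoImplicit false

open scoped Classical

open Filter Topology

namespace Pool.Agent.MPc05127.PR

open Pool.Agent.MPc05127.PP (E)
open Pool.Agent.MPc05127.PO

section

variable {m l d : ℕ} {e : Fin m → ℕ}

/-- The weighted sum of the vectors, with given weights. -/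
noncomputable def Gw (W : Fin m → Ix l → ℝ) (a : Fin m → ℕ → E d) (X : Jo l e → ℕ → ℂ)
    (y : Fin l → ℂ) (i : Fin m) (b : Fin l) : ℂ :=
  ∑ h, ((W i h : ℝ) : ℂ) * FO a X y i b (nb l h)

/-- The limit of the functions. -/
noncomputable def fL (p : ℕ) [NeZero p] (ρ : Fin m → Bool) (W : Fin m → Ix l → ℝ)
    (a : Fin m → ℕ → E d) : Cf p l e → (Jo l e → ℕ → ℂ) → (Fin l → ℂ) → ℂ
  | Sum.inr (Sum.inr (b, i)), X, y =>
    if ρ i.1 then Gw W a X y i.1 b else fo p a (Sum.inr (Sum.inr (b, i))) X y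
  | x, X, y => fo p a x X y

/-- The limit of the Miranda functions. -/
noncomputable def gL (p : ℕ) [NeZero p] [NeZero m] (ρ : Fin m → Bool) (W : Fin m → Ix l → ℝ)
    (a : Fin m → ℕ → E d) (b : Fin l) (X : Jo l e → ℕ → ℂ) (y : Fin l → ℂ) : ℂ :=
  if ρ 0 then -((1 - su y : ℝ) * Gw W a X y 0 b) +
    (su y * (‖vR d X b‖ ^ 2 + ‖vI d X b‖ ^ 2) : ℝ) * y b
  else go p a b X y

/-- The properties of the weights `|ν| + τ` of a family with two parts in the limit. -/
structure Wts (a : Fin m → ℕ → E d) (X : Jo l e → ℕ → ℂ) (y : Fin l → ℂ) (i : Fin m)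
    (ν : Ix l → ℝ) (τ : ℝ) : Prop where
  nn : 0 ≤ τ
  one : ∑ h, (|ν h| + τ) = 1
  sum : ∑ h, ν h = 0
  dep : ∀ x : Fin l × Bool, ∑ h, ν h * ((tu y - inner ℝ (a i (nb l h)) (uo d X y)) *
      inner ℝ (a i (nb l h)) (fr d X x)) = 0
  rk : τ ≠ 0 → ∀ h, mu a X y i h = 0

end

/-- The common zero for positive `c`. -/
theorem tZrR (hPo : S_Po) (hBl : S_Bl) (hFc : S_Fc) (hFs : S_Fs) (hFm : S_Fm) (p : ℕ) [NeZero p]
    (hp : p.Prime) (hp2 : p ≠ 2) (d l : ℕ) (hl : 1 ≤ l) (hld : 2 * l ≤ d)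
    (e : Fin (d - 2 * l + 1) → ℕ) (ρ : Fin (d - 2 * l + 1) → Bool)
    (a : Fin (d - 2 * l + 1) → ℕ → E d) (c : ℝ) (hc : 0 < c) :
    ∃ z ∈ (DomK (no p) : Set ((Jo l e → ℕ → ℂ) × (Fin l → ℂ))),
      (∀ x : Cf p l e, fR p ρ c a x z.1 z.2 = 0) ∧ ∀ b, gR p ρ c a b z.1 z.2 = 0 := by
  refine PoK hPo (Cf p l e) (Fin l) (Jo l e) p BO XO (fun b j => XQ b j) ru
    (no p) (fun x => fR p ρ c a x) (fun b => gR p ρ c a b) hp
    (fun x => (hBl p hp hp2 _ l e x).1) (fun x j h => (hBl p hp hp2 _ l e x).2 j h)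
    (fun _ => ?_)
    (fun x => contfR hFc hp.two_le ρ c hc a x) (fun b => contgR hFc hp.two_le ρ c hc a b)
    (fun j z hz h0 => tFsR hFs hp.two_le ρ c a j z hz h0) (fun b z hz hb => ?_)
  · unfold no
    exact congrArg _ (Subsingleton.elim _ _)
  · obtain ⟨hv, hg⟩ := hFm p hp hp2 d l hl hld e a z hz
    by_cases h0 : ρ 0 = true
    · refine ⟨‖vR d z.1 b‖ ^ 2 + ‖vI d z.1 b‖ ^ 2, hv b, ?_⟩
      have hn : ‖z.2‖ = 1 := by
        apply le_antisymm
        · exact (pi_norm_le_iff_of_nonneg zero_le_one).2 hz.2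
        · rw [← hb]
          exact norm_le_pi_norm z.2 b
      have hs : su z.2 = 1 := by
        unfold su
        rw [hn]
        norm_num
      unfold gR
      rw [if_pos h0, hs]
      simp
    · unfold gR
      rw [if_neg h0]
      exact hg b hb

/-- The limit of the common zeros. -/
theorem tLim (hPo : S_Po) (hBl : S_Bl) (hFc : S_Fc) (hFs : S_Fs) (hFm : S_Fm) (p : ℕ) [NeZero p]
    (hp : p.Prime) (hp2 : p ≠ 2) (d l : ℕ) (hl : 1 ≤ l) (hld : 2 * l ≤ d)
    (e : Fin (d - 2 * l + 1) → ℕ) (ρ : Fin (d - 2 * l + 1) → Bool)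
    (a : Fin (d - 2 * l + 1) → ℕ → E d) :
    ∃ z ∈ (DomO (no p) : Set ((Jo l e → ℕ → ℂ) × (Fin l → ℂ))),
      ∃ (ν : Fin (d - 2 * l + 1) → Ix l → ℝ) (τ : Fin (d - 2 * l + 1) → ℝ),
      (∀ i, Wts a z.1 z.2 i (ν i) (τ i)) ∧
      (∀ x : Cf p l e, fL p ρ (fun i h => |ν i h| + τ i) a x z.1 z.2 = 0) ∧
      ∀ b, gL p ρ (fun i h => |ν i h| + τ i) a b z.1 z.2 = 0 := by
  -- the sequences
  have hcn : ∀ n : ℕ, (0 : ℝ) < 1 / ((n : ℝ) + 1) := fun n => by positivity
  choose z hz hf hg using fun n : ℕ => tZrR hPo hBl hFc hFs hFm p hp hp2 d l hl hld e ρ a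
    (1 / ((n : ℝ) + 1)) (hcn n)
  set c : ℕ → ℝ := fun n => 1 / ((n : ℝ) + 1) with hcdef
  set S : ℕ → Fin (d - 2 * l + 1) → ℝ := fun n i => Sm (c n) a (z n).1 (z n).2 i with hS
  have hSpos : ∀ n i, 0 < S n i := fun n i => Sm_pos (c n) (hcn n) a _ _ i
  set ν : ℕ → Fin (d - 2 * l + 1) → Ix l → ℝ := fun n i h => mu a (z n).1 (z n).2 i h / S n i
    with hν
  set τ : ℕ → Fin (d - 2 * l + 1) → ℝ := fun n i => c n / S n i with hτ
  have hτ0 : ∀ n i, 0 ≤ τ n i := fun n i => div_nonneg (hcn n).le (hSpos n i).le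
  have hW : ∀ n i h, (|mu a (z n).1 (z n).2 i h| + c n) / S n i = |ν n i h| + τ n i := by
    intro n i h
    simp only [hν, hτ]
    rw [abs_div, abs_of_pos (hSpos n i), ← add_div]
  have hone : ∀ n i, ∑ h, (|ν n i h| + τ n i) = 1 := by
    intro n i
    rw [← Finset.sum_congr rfl fun h _ => hW n i h, ← Finset.sum_div]
    exact div_self (hSpos n i).ne'
  have hτ1 : ∀ n i, τ n i ≤ 1 := by
    intro n i
    rw [← hone n i]
    have h1 := Finset.single_le_sum (f := fun h => |ν n i h| + τ n i)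
      (fun h _ => add_nonneg (abs_nonneg _) (hτ0 n i)) (Finset.mem_univ (none : Ix l))
    have h2 := abs_nonneg (ν n i none)
    have h3 : τ n i ≤ |ν n i none| + τ n i := by linarith
    exact h3.trans h1
  have hν1 : ∀ n i h, |ν n i h| ≤ 1 := by
    intro n i h
    rw [← hone n i]
    have h1 := Finset.single_le_sum (f := fun h => |ν n i h| + τ n i)
      (fun h _ => add_nonneg (abs_nonneg _) (hτ0 n i)) (Finset.mem_univ h)
    have h2 := hτ0 n i
    have h3 : |ν n i h| ≤ |ν n i h| + τ n i := by linarith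
    exact h3.trans h1
  -- the limits along an ultrafilter
  set U : Ultrafilter ℕ := hyperfilter ℕ with hU
  have hUtop : (U : Filter ℕ) ≤ atTop := Nat.hyperfilter_le_atTop
  obtain ⟨z', hz', hzl⟩ := (DomK_compact (K := Fin l) (no (e := e) (l := l) p)).ultrafilter_le_nhds'
    (U.map z) (Ultrafilter.mem_map.2 (Filter.mem_of_superset Filter.univ_mem fun n _ => hz n))
  have hzt : Tendsto z U (𝓝 z') := hzl
  have hcomp1 : IsCompact (Set.univ.pi fun _ : Fin (d - 2 * l + 1) => Set.univ.pi fun _ : Ix l =>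
      Set.Icc (-1 : ℝ) 1) := isCompact_univ_pi fun _ => isCompact_univ_pi fun _ => isCompact_Icc
  obtain ⟨ν', -, hνl⟩ := hcomp1.ultrafilter_le_nhds' (U.map ν)
    (Ultrafilter.mem_map.2 (Filter.mem_of_superset Filter.univ_mem
      fun n _ => fun i _ h _ => abs_le.1 (hν1 n i h)))
  have hνt : Tendsto ν U (𝓝 ν') := hνl
  have hcomp2 : IsCompact (Set.univ.pi fun _ : Fin (d - 2 * l + 1) => Set.Icc (0 : ℝ) 1) :=
    isCompact_univ_pi fun _ => isCompact_Icc
  obtain ⟨τ', -, hτl⟩ := hcomp2.ultrafilter_le_nhds' (U.map τ)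
    (Ultrafilter.mem_map.2 (Filter.mem_of_superset Filter.univ_mem
      fun n _ => fun i _ => ⟨hτ0 n i, hτ1 n i⟩))
  have hτt : Tendsto τ U (𝓝 τ') := hτl
  have hct : Tendsto c U (𝓝 0) := tendsto_one_div_add_atTop_nhds_zero_nat.mono_left hUtop
  have hν2 : ∀ i h, Tendsto (fun n => ν n i h) U (𝓝 (ν' i h)) := fun i h =>
    (tendsto_pi_nhds.1 ((tendsto_pi_nhds.1 hνt) i)) h
  have hτ2 : ∀ i, Tendsto (fun n => τ n i) U (𝓝 (τ' i)) := fun i => (tendsto_pi_nhds.1 hτt) i
  have hWt : ∀ i h, Tendsto (fun n => |ν n i h| + τ n i) U (𝓝 (|ν' i h| + τ' i)) := fun i h =>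
    ((hν2 i h).abs).add (hτ2 i)
  have hFOt : ∀ i b k, Tendsto (fun n => FO a (z n).1 (z n).2 i b k) U
      (𝓝 (FO a z'.1 z'.2 i b k)) := fun i b k => ((contFO a i b k).tendsto z').comp hzt
  have hGwt : ∀ i b, Tendsto (fun n => Gw (fun i h => |ν n i h| + τ n i) a (z n).1 (z n).2 i b) U
      (𝓝 (Gw (fun i h => |ν' i h| + τ' i) a z'.1 z'.2 i b)) := by
    intro i b
    unfold Gw
    exact tendsto_finsetSum _ fun h _ =>
      ((Complex.continuous_ofReal.tendsto _).comp (hWt i h)).mul (hFOt i b (nb l h))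
  have hGRw : ∀ n i b, GR (c n) a (z n).1 (z n).2 i b =
      Gw (fun i h => |ν n i h| + τ n i) a (z n).1 (z n).2 i b := by
    intro n i b
    unfold GR Gw
    exact Finset.sum_congr rfl fun h _ => by
      rw [show Sm (c n) a (z n).1 (z n).2 i = S n i from rfl, hW n i h]
  have hzD : Tendsto z U (𝓝[DomO (no p)] z') :=
    tendsto_nhdsWithin_iff.2 ⟨hzt, Filter.Eventually.of_forall fun n => (hz n).1⟩
  have huniq : ∀ {f : ℕ → ℂ} {w : ℂ}, Tendsto f U (𝓝 w) → (∀ n, f n = 0) → w = 0 := by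
    intro f w hft hf0
    have h1 : f = fun _ => 0 := funext hf0
    rw [h1] at hft
    exact tendsto_nhds_unique hft tendsto_const_nhds
  refine ⟨z', hz'.1, ν', τ', fun i => ?_, fun x => ?_, fun b => ?_⟩
  · refine ⟨?_, ?_, ?_, fun x => ?_, fun hne h => ?_⟩
    · exact ge_of_tendsto (hτ2 i) (Filter.Eventually.of_forall fun n => hτ0 n i)
    · have h1 : Tendsto (fun n => ∑ h, (|ν n i h| + τ n i)) U (𝓝 (∑ h, (|ν' i h| + τ' i))) :=
        tendsto_finsetSum _ fun h _ => hWt i h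
      simp only [hone] at h1
      exact tendsto_nhds_unique h1 tendsto_const_nhds
    · have h1 : Tendsto (fun n => ∑ h, ν n i h) U (𝓝 (∑ h, ν' i h)) :=
        tendsto_finsetSum _ fun h _ => hν2 i h
      have h2 : ∀ n, ∑ h, ν n i h = 0 := by
        intro n
        simp only [hν]
        rw [← Finset.sum_div, mu_sum, zero_div]
      simp only [h2] at h1
      exact (tendsto_nhds_unique h1 tendsto_const_nhds)
    · have hfr : Continuous (fun z : (Jo l e → ℕ → ℂ) × (Fin l → ℂ) => fr d z.1 x) := by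
        unfold fr
        by_cases hx : x.2 = true
        · simp only [if_pos hx]
          exact contVI x.1
        · simp only [if_neg hx]
          exact contVR x.1
      have hk : ∀ h, Continuous (fun z : (Jo l e → ℕ → ℂ) × (Fin l → ℂ) =>
          (tu z.2 - inner ℝ (a i (nb l h)) (uo d z.1 z.2)) * inner ℝ (a i (nb l h)) (fr d z.1 x)) :=
        fun h => (contTu.sub (continuous_const.inner contUO)).mul (continuous_const.inner hfr)
      have h1 : Tendsto (fun n => ∑ h, ν n i h * ((tu (z n).2 - inner ℝ (a i (nb l h))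
          (uo d (z n).1 (z n).2)) * inner ℝ (a i (nb l h)) (fr d (z n).1 x))) U
          (𝓝 (∑ h, ν' i h * ((tu z'.2 - inner ℝ (a i (nb l h)) (uo d z'.1 z'.2)) *
            inner ℝ (a i (nb l h)) (fr d z'.1 x)))) :=
        tendsto_finsetSum _ fun h _ => (hν2 i h).mul (((hk h).tendsto z').comp hzt)
      have h2 : ∀ n, ∑ h, ν n i h * ((tu (z n).2 - inner ℝ (a i (nb l h))
          (uo d (z n).1 (z n).2)) * inner ℝ (a i (nb l h)) (fr d (z n).1 x)) = 0 := by
        intro n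
        have h3 := mu_fr a (z n).1 (z n).2 i x
        have h4 : ∀ h, ν n i h * ((tu (z n).2 - inner ℝ (a i (nb l h))
          (uo d (z n).1 (z n).2)) * inner ℝ (a i (nb l h)) (fr d (z n).1 x)) =
            (mu a (z n).1 (z n).2 i h * ((tu (z n).2 - inner ℝ (a i (nb l h))
          (uo d (z n).1 (z n).2)) * inner ℝ (a i (nb l h)) (fr d (z n).1 x))) / S n i := by
          intro h
          simp only [hν]
          ring
        rw [Finset.sum_congr rfl fun h _ => h4 h, ← Finset.sum_div, h3, zero_div]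
      simp only [h2] at h1
      exact (tendsto_nhds_unique h1 tendsto_const_nhds)
    · have hmt : ∀ h, Tendsto (fun n => |mu a (z n).1 (z n).2 i h|) U
          (𝓝 (|mu a z'.1 z'.2 i h|)) := fun h => (((contMu a i h).tendsto z').comp hzt).abs
      have h1 : Tendsto (fun n => S n i) U (𝓝 (∑ h, (|mu a z'.1 z'.2 i h| + 0))) := by
        simp only [hS]
        unfold Sm
        exact tendsto_finsetSum _ fun h _ => (hmt h).add hct
      have h2 : ∀ n, S n i * τ n i = c n := by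
        intro n
        simp only [hτ]
        exact mul_div_cancel₀ _ (hSpos n i).ne'
      have h3 := h1.mul (hτ2 i)
      simp only [h2, add_zero] at h3
      have h4 := tendsto_nhds_unique h3 hct
      have h5 := (mul_eq_zero.1 h4).resolve_right hne
      have h6 := (Finset.sum_eq_zero_iff_of_nonneg fun h _ => abs_nonneg _).1 h5 h
        (Finset.mem_univ h)
      exact abs_eq_zero.1 h6
  · rcases x with ⟨i, χ, _ | ⟨b, s⟩⟩ | (b | ⟨q, s⟩) | ⟨b, i⟩
    · exact huniq (((hFc p hp.two_le _ l d e a).1 (Sum.inl ⟨i, χ, none⟩) z' hz'.1).tendsto.comp hzD)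
        fun n => hf n (Sum.inl ⟨i, χ, none⟩)
    · exact huniq (((hFc p hp.two_le _ l d e a).1 (Sum.inl ⟨i, χ, some (b, s)⟩) z' hz'.1).tendsto.comp hzD)
        fun n => hf n (Sum.inl ⟨i, χ, some (b, s)⟩)
    · exact huniq (((hFc p hp.two_le _ l d e a).1 (Sum.inr (Sum.inl (Sum.inl b))) z' hz'.1).tendsto.comp
        hzD) fun n => hf n (Sum.inr (Sum.inl (Sum.inl b)))
    · exact huniq (((hFc p hp.two_le _ l d e a).1 (Sum.inr (Sum.inl (Sum.inr (q, s)))) z'
        hz'.1).tendsto.comp hzD) fun n => hf n (Sum.inr (Sum.inl (Sum.inr (q, s))))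
    · by_cases hi : ρ i.1 = true
      · have h1 : fL p ρ (fun i h => |ν' i h| + τ' i) a (Sum.inr (Sum.inr (b, i)) : Cf p l e)
            z'.1 z'.2 = Gw (fun i h => |ν' i h| + τ' i) a z'.1 z'.2 i.1 b := if_pos hi
        rw [h1]
        refine huniq (hGwt i.1 b) fun n => ?_
        rw [← hGRw]
        have h2 := hf n (Sum.inr (Sum.inr (b, i)))
        rwa [fR_rad ρ _ a b i _ _ hi] at h2
      · have h1 : fL p ρ (fun i h => |ν' i h| + τ' i) a (Sum.inr (Sum.inr (b, i)) : Cf p l e)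
            z'.1 z'.2 = fo p a (Sum.inr (Sum.inr (b, i)) : Cf p l e) z'.1 z'.2 := if_neg hi
        rw [h1]
        refine huniq (((hFc p hp.two_le _ l d e a).1 (Sum.inr (Sum.inr (b, i))) z' hz'.1).tendsto.comp hzD)
          fun n => ?_
        have h2 := hf n (Sum.inr (Sum.inr (b, i)))
        rwa [fR_nrad ρ _ a b i _ _ hi] at h2
  · by_cases h0 : ρ 0 = true
    · have h1 : gL p ρ (fun i h => |ν' i h| + τ' i) a b z'.1 z'.2 =
          -((1 - su z'.2 : ℝ) * Gw (fun i h => |ν' i h| + τ' i) a z'.1 z'.2 0 b) +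
          (su z'.2 * (‖vR d z'.1 b‖ ^ 2 + ‖vI d z'.1 b‖ ^ 2) : ℝ) * z'.2 b := if_pos h0
      rw [h1]
      have h2 : Tendsto (fun n => -((1 - su (z n).2 : ℝ) *
          Gw (fun i h => |ν n i h| + τ n i) a (z n).1 (z n).2 0 b) +
          (su (z n).2 * (‖vR d (z n).1 b‖ ^ 2 + ‖vI d (z n).1 b‖ ^ 2) : ℝ) * (z n).2 b) U
          (𝓝 (-((1 - su z'.2 : ℝ) * Gw (fun i h => |ν' i h| + τ' i) a z'.1 z'.2 0 b) +
          (su z'.2 * (‖vR d z'.1 b‖ ^ 2 + ‖vI d z'.1 b‖ ^ 2) : ℝ) * z'.2 b)) := by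
        refine Tendsto.add (Tendsto.neg (Tendsto.mul ?_ (hGwt 0 b))) (Tendsto.mul ?_ ?_)
        · exact ((Complex.continuous_ofReal.comp
            (continuous_const.sub (contSu (e := e)))).tendsto z').comp hzt
        · exact ((Complex.continuous_ofReal.comp ((contSu (e := e)).mul
            (((contVR b).norm.pow 2).add ((contVI b).norm.pow 2)))).tendsto z').comp hzt
        · exact ((contY (e := e) b).tendsto z').comp hzt
      refine huniq h2 fun n => ?_
      rw [← hGRw]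
      have h3 := hg n b
      unfold gR at h3
      rwa [if_pos h0] at h3
    · have h1 : gL p ρ (fun i h => |ν' i h| + τ' i) a b z'.1 z'.2 = go p a b z'.1 z'.2 := if_neg h0
      rw [h1]
      refine huniq (((hFc p hp.two_le _ l d e a).2 b z' hz'.1).tendsto.comp hzD) fun n => ?_
      have h3 := hg n b
      unfold gR at h3
      rwa [if_neg h0] at h3

end Pool.Agent.MPc05127.PR
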